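import Mathlib

/-!
# MP_5e4080_gt: bodies with two i-equichordal points (definitions)
-/

namespace Pool.Agent.H892R2.EC

open Set Filter Topology

/-- Euclidean `n`-space. -/
abbrev E (n : ℕ) := EuclideanSpace ℝ (Fin n)

/-- A body: a compact set equal to the closure of its interior. -/
def IsBody {n : ℕ} (L : Set (E n)) : Prop := IsCompact L ∧ L = closure (interior L)

/-- The radial function of `M` with respect to the origin. -/
noncomputable def radial {n : ℕ} (M : Set (E n)) (u : E n) : ℝ :=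
  sSup {t : ℝ | 0 ≤ t ∧ t • u ∈ M}

/-- Star bodies (with respect to the origin): compact sets, star-shaped with respect to the origin,
whose radial function is positive and continuous on the unit sphere. -/
structure IsStarBody {n : ℕ} (M : Set (E n)) : Prop where
  compact : IsCompact M
  star : ∀ x ∈ M, ∀ t ∈ Icc (0:ℝ) 1, t • x ∈ M
  pos : ∀ u : E n, ‖u‖ = 1 → 0 < radial M u
  cont : ContinuousOn (radial M) (Metric.sphere (0 : E n) 1)

/-- The `i`-chord function of `L` at `p`. -/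
noncomputable def chordFn {n : ℕ} (i : ℝ) (L : Set (E n)) (p u : E n) : ℝ :=
  if i = 0 then radial ((fun x => x - p) '' L) u * radial ((fun x => x - p) '' L) (-u)
  else (radial ((fun x => x - p) '' L) u ^ i + radial ((fun x => x - p) '' L) (-u) ^ i) / 2

/-- `p` is an `i`-equichordal point of `L`. -/
def IsEquichordal {n : ℕ} (i : ℝ) (L : Set (E n)) (p : E n) : Prop :=
  p ∈ interior L ∧ IsStarBody ((fun x => x - p) '' L) ∧
    ∃ a : ℝ, 0 < a ∧ ∀ u : E n, ‖u‖ = 1 → chordFn i L p u = a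

/-- The translation function of the upper boundary curve in the coordinate `c = cot`:
the point of the curve seen from `p₂` under `cot = c` is seen from `p₁` under `cot = τ c`. -/
structure Trans (i A : ℝ) (τ : ℝ → ℝ) : Prop where
  mono : StrictMono τ
  inv : ∀ c, τ (-(τ c)) = -c
  gt : ∀ c, c < τ c
  eqn : ∀ c, (τ c - c) ^ (-i) + (τ (-c) + c) ^ (-i) = A * (1 + c ^ 2) ^ (-i / 2)

/-- A one-parameter family `X · s`, `s ∈ [0,1]`, of orbits of the recursion. -/
structure OrbitData (i A : ℝ) (X : ℕ → ℝ → ℝ) : Prop where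
  odd0 : ∀ s ∈ Icc (0:ℝ) 1, X 0 s = - X 1 (1 - s)
  zero : X 1 0 = 0
  lt : ∀ n, ∀ s ∈ Icc (0:ℝ) 1, X n s < X (n + 1) s
  eqn : ∀ n, ∀ s ∈ Icc (0:ℝ) 1,
    (X (n + 2) s - X (n + 1) s) ^ (-i) + (X (n + 1) s - X n s) ^ (-i)
      = A * (1 + (X (n + 1) s) ^ 2) ^ (-i / 2)
  smono : ∀ n, StrictMonoOn (X n) (Icc 0 1)
  cont : ∀ n, ContinuousOn (X n) (Icc 0 1)
  glue : ∀ n, X n 1 = X (n + 1) 0
  ratio : ∃ a b : ℝ, 1 < a ∧ ∀ n, 2 ≤ n → ∀ s ∈ Icc (0:ℝ) 1,
    0 < X n s ∧ a * X n s ≤ X (n + 1) s ∧ X (n + 1) s ≤ b * X n s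

/-- the perspective of `τ` -/
noncomputable def P (Λ : ℝ) (τ : ℝ → ℝ) (x r : ℝ) : ℝ :=
  if r = 0 then (if 0 ≤ x then Λ * x else x / Λ) else r * τ (x / r)

/-- one step of the recursion: the next `cot` after `b, c` -/
noncomputable def F (i A c b : ℝ) : ℝ :=
  c + (A * (1 + c ^ 2) ^ (-i / 2) - (c - b) ^ (-i)) ^ (-1 / i)

/-- the orbits starting from a curve `φ` -/
noncomputable def X (i A : ℝ) (φ : ℝ → ℝ) : ℕ → ℝ → ℝ
  | 0, s => φ (s - 1)
  | 1, s => φ s
  | (n + 2), s => F i A (X i A φ (n + 1) s) (X i A φ n s)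

end Pool.Agent.H892R2.EC
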