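import Pool.Agent.H892R2.EC.Defs

/-! # MP_5e4080_gt: task T5, gluing the orbits -/

namespace Pool.Agent.H892R2.EC

open Set Filter Topology

/-- T5. The orbits glue to one function `Φ`. -/
theorem T5_Phi {i A : ℝ} {X : ℕ → ℝ → ℝ} (h : OrbitData i A X) :
    ∃ Φ : ℝ → ℝ, StrictMono Φ ∧ Function.Surjective Φ ∧ (∀ t, Φ (-t) = - Φ t) ∧
      (∀ t, (Φ (t + 1) - Φ t) ^ (-i) + (Φ t - Φ (t - 1)) ^ (-i)
        = A * (1 + (Φ t) ^ 2) ^ (-i / 2)) ∧
      ∃ a b T : ℝ, 1 < a ∧ ∀ t, T ≤ t → 0 < Φ t ∧ a * Φ t ≤ Φ (t + 1) ∧ Φ (t + 1) ≤ b * Φ t := by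
  set Ψ : ℝ → ℝ := fun t => X (⌊t⌋₊ + 1) (t - ⌊t⌋₊) with hΨ
  have hdec : ∀ t : ℝ, 0 ≤ t → ∃ n : ℕ, ∃ s : ℝ, s ∈ Ico (0:ℝ) 1 ∧ t = n + s := by
    intro t ht
    refine ⟨⌊t⌋₊, t - ⌊t⌋₊, ⟨?_, ?_⟩, by ring⟩
    · have := Nat.floor_le ht; linarith
    · have := Nat.lt_floor_add_one t; linarith
  have hΨ1 : ∀ (n : ℕ) (s : ℝ), s ∈ Ico (0:ℝ) 1 → Ψ (n + s) = X (n + 1) s := by
    intro n s hs
    have hfl : ⌊(n:ℝ) + s⌋₊ = n := by
      rw [Nat.floor_eq_iff (by have := hs.1; positivity)]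
      exact ⟨by linarith [hs.1], by linarith [hs.2]⟩
    simp only [hΨ, hfl]
    congr 1; ring
  have hΨ2 : ∀ (n : ℕ) (s : ℝ), s ∈ Icc (0:ℝ) 1 → Ψ (n + s) = X (n + 1) s := by
    intro n s hs
    rcases lt_or_eq_of_le hs.2 with h1 | h1
    · exact hΨ1 n s ⟨hs.1, h1⟩
    · subst h1
      have := hΨ1 (n + 1) 0 ⟨le_refl _, one_pos⟩
      rw [h.glue (n + 1), ← this]; push_cast; congr 1; ring
  have h01 : (0:ℝ) ∈ Icc (0:ℝ) 1 := ⟨le_refl _, zero_le_one⟩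
  have h11 : (1:ℝ) ∈ Icc (0:ℝ) 1 := ⟨zero_le_one, le_refl _⟩
  have hΨ0 : Ψ 0 = 0 := by
    have := hΨ2 0 0 h01
    simp only [Nat.cast_zero, zero_add] at this
    rw [this, h.zero]
  have hX0mono : Monotone (fun n => X n 0) := monotone_nat_of_le_succ (fun n => (h.lt n 0 h01).le)
  have hΨmono : StrictMonoOn Ψ (Ici 0) := by
    intro t ht t' ht' htt
    obtain ⟨n, s, hs, rfl⟩ := hdec t ht
    obtain ⟨m, r, hr, rfl⟩ := hdec t' ht'
    rw [hΨ1 n s hs, hΨ1 m r hr]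
    have hs' : s ∈ Icc (0:ℝ) 1 := Ico_subset_Icc_self hs
    have hr' : r ∈ Icc (0:ℝ) 1 := Ico_subset_Icc_self hr
    have hnm : n ≤ m := by
      by_contra hc
      have : (m:ℝ) + 1 ≤ n := by exact_mod_cast (not_le.1 hc)
      linarith [hs.1, hr.2]
    rcases Nat.lt_or_eq_of_le hnm with h1 | h1
    · calc X (n + 1) s < X (n + 1) 1 := h.smono _ hs' h11 hs.2
        _ = X (n + 1 + 1) 0 := h.glue _
        _ ≤ X (m + 1) 0 := hX0mono (by omega)
        _ ≤ X (m + 1) r := (h.smono _).monotoneOn h01 hr' hr.1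
    · subst h1
      exact h.smono _ hs' hr' (by linarith)
  set Φ : ℝ → ℝ := fun t => if 0 ≤ t then Ψ t else - Ψ (-t) with hΦ
  have hΦpos : ∀ t, 0 ≤ t → Φ t = Ψ t := fun t ht => by simp only [hΦ, if_pos ht]
  have hodd : ∀ t, Φ (-t) = - Φ t := by
    intro t
    rcases lt_trichotomy t 0 with h1 | h1 | h1
    · simp only [hΦ]
      rw [if_pos (by linarith : (0:ℝ) ≤ -t), if_neg (by linarith : ¬ (0:ℝ) ≤ t), neg_neg]
    · subst h1; simp [hΦ, hΨ0]
    · simp only [hΦ]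
      rw [if_neg (by linarith : ¬ (0:ℝ) ≤ -t), if_pos h1.le, neg_neg]
  have hΦn : ∀ (n : ℕ) (s : ℝ), s ∈ Icc (0:ℝ) 1 → Φ (n + s) = X (n + 1) s := by
    intro n s hs
    rw [hΦpos _ (by have := hs.1; positivity), hΨ2 n s hs]
  have hΦm : ∀ (n : ℕ) (s : ℝ), s ∈ Icc (0:ℝ) 1 → Φ (n + s - 1) = X n s := by
    intro n s hs
    rcases n with _ | n
    · have h1 : (1 - s) ∈ Icc (0:ℝ) 1 := ⟨by linarith [hs.2], by linarith [hs.1]⟩
      have h2 := hΦn 0 (1 - s) h1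
      have h3 : ((0:ℕ):ℝ) + s - 1 = -(((0:ℕ):ℝ) + (1 - s)) := by push_cast; ring
      rw [h3, hodd, h2, h.odd0 s hs]
    · rw [← hΦn n s hs]; congr 1; push_cast; ring
  have hmono : StrictMono Φ := by
    apply strictMono_of_odd_strictMonoOn_nonneg hodd
    intro t ht t' ht' htt
    rw [hΦpos t ht, hΦpos t' ht']
    exact hΨmono ht ht' htt
  obtain ⟨a, b, ha, hab⟩ := h.ratio
  have hX20 : 0 < X 2 0 := (hab 2 (le_refl _) 0 h01).1
  have hgrow : ∀ k : ℕ, a ^ k * X 2 0 ≤ X (k + 2) 0 := by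
    intro k
    induction k with
    | zero => simp
    | succ k ih =>
      have h1 := (hab (k + 2) (by omega) 0 h01).2.1
      calc a ^ (k + 1) * X 2 0 = a * (a ^ k * X 2 0) := by ring
        _ ≤ a * X (k + 2) 0 := mul_le_mul_of_nonneg_left ih (by linarith)
        _ ≤ X (k + 1 + 2) 0 := h1
  have hsurj0 : ∀ y, 0 ≤ y → ∃ t, Φ t = y := by
    intro y hy
    have hex : ∃ n : ℕ, y ≤ X (n + 1) 1 := by
      obtain ⟨k, hk⟩ := pow_unbounded_of_one_lt (y / X 2 0) ha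
      refine ⟨k, ?_⟩
      rw [h.glue]
      have : y < a ^ k * X 2 0 := by rwa [div_lt_iff₀ hX20] at hk
      exact (this.trans_le (hgrow k)).le
    classical
    have hsp := Nat.find_spec hex
    set n := Nat.find hex with hn
    have hlow : X (n + 1) 0 ≤ y := by
      rcases Nat.eq_zero_or_pos n with h1 | h1
      · rw [h1, zero_add, h.zero]; exact hy
      · have h2 := Nat.find_min hex (m := n - 1) (by omega)
        have h3 : n - 1 + 1 = n := by omega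
        rw [h3, h.glue] at h2
        exact (not_le.1 h2).le
    obtain ⟨s, hs, hsy⟩ := intermediate_value_Icc zero_le_one (h.cont (n + 1)) ⟨hlow, hsp⟩
    exact ⟨n + s, by rw [hΦn n s hs, hsy]⟩
  have hsurj : Function.Surjective Φ := by
    intro y
    rcases le_total 0 y with h1 | h1
    · exact hsurj0 y h1
    · obtain ⟨t, ht⟩ := hsurj0 (-y) (by linarith)
      exact ⟨-t, by rw [hodd, ht, neg_neg]⟩
  have heq0 : ∀ t, 0 ≤ t → (Φ (t + 1) - Φ t) ^ (-i) + (Φ t - Φ (t - 1)) ^ (-i)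
        = A * (1 + (Φ t) ^ 2) ^ (-i / 2) := by
    intro t ht
    obtain ⟨n, s, hs, rfl⟩ := hdec t ht
    have hs' : s ∈ Icc (0:ℝ) 1 := Ico_subset_Icc_self hs
    have h1 : Φ ((n:ℝ) + s + 1) = X (n + 2) s := by
      rw [← hΦn (n + 1) s hs']; congr 1; push_cast; ring
    rw [h1, hΦn n s hs', hΦm n s hs']
    exact h.eqn n s hs'
  refine ⟨Φ, hmono, hsurj, hodd, ?_, a, b, 1, ha, ?_⟩
  · intro t
    rcases le_total 0 t with h1 | h1
    · exact heq0 t h1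
    · have h2 := heq0 (-t) (by linarith)
      have e1 : Φ (-t + 1) = - Φ (t - 1) := by rw [← hodd]; congr 1; ring
      have e2 : Φ (-t - 1) = - Φ (t + 1) := by rw [← hodd]; congr 1; ring
      rw [e1, e2, hodd] at h2
      have e3 : -Φ (t - 1) - -Φ t = Φ t - Φ (t - 1) := by ring
      have e4 : -Φ t - -Φ (t + 1) = Φ (t + 1) - Φ t := by ring
      have e5 : (-Φ t) ^ 2 = (Φ t) ^ 2 := by ring
      rw [e3, e4, e5] at h2
      rw [add_comm, h2]
  · intro t ht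
    obtain ⟨n, s, hs, rfl⟩ := hdec t (by linarith)
    have hs' : s ∈ Icc (0:ℝ) 1 := Ico_subset_Icc_self hs
    have hn : 1 ≤ n := by
      by_contra hc
      have : n = 0 := by omega
      subst this
      have := hs.2
      simp at ht
      linarith
    have h1 : Φ ((n:ℝ) + s + 1) = X (n + 2) s := by
      rw [← hΦn (n + 1) s hs']; congr 1; push_cast; ring
    rw [h1, hΦn n s hs']
    exact hab (n + 1) (by omega) s hs'

end Pool.Agent.H892R2.EC
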