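import Mathlib

namespace Pool.Agent.H892R2.EC

open Set Filter Topology

/-- the function `i * (f - e)` is strictly increasing on `(1, ∞)`. -/
theorem T4_mono {i : ℝ} (hi0 : i ≠ 0) (hi1 : i < 1) :
    StrictMonoOn (fun x : ℝ => i * ((1 - x⁻¹) ^ (-i) - (x - 1) ^ (-i))) (Ioi 1) := by
  have hder : ∀ x : ℝ, 1 < x → HasDerivAt (fun x : ℝ => i * ((1 - x⁻¹) ^ (-i) - (x - 1) ^ (-i)))
      (i ^ 2 * ((x - 1) ^ (-i - 1) * (1 - x ^ (i - 1)))) x := by
    intro x hx
    have hx0 : (0:ℝ) < x := by linarith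
    have hx1 : (0:ℝ) < x - 1 := by linarith
    have hx2 : (0:ℝ) < 1 - x⁻¹ := by
      have : x⁻¹ < 1 := inv_lt_one_of_one_lt₀ hx
      linarith
    have h1 : HasDerivAt (fun x : ℝ => 1 - x⁻¹) ((x ^ 2)⁻¹) x := by
      have := (hasDerivAt_inv hx0.ne').const_sub 1
      simpa using this
    have h2 : HasDerivAt (fun x : ℝ => x - 1) 1 x := (hasDerivAt_id x).sub_const 1
    have h3 := h1.rpow_const (p := -i) (Or.inl hx2.ne')
    have h4 := h2.rpow_const (p := -i) (Or.inl hx1.ne')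
    have h5 := (h3.sub h4).const_mul i
    refine h5.congr_deriv ?_
    have e1 : (1 - x⁻¹) = (x - 1) / x := by field_simp
    rw [e1, Real.div_rpow hx1.le hx0.le]
    have e3 : x ^ (-i - 1) ≠ 0 := (Real.rpow_pos_of_pos hx0 _).ne'
    have e4 : x ^ (i - 1) = (x ^ 2)⁻¹ / x ^ (-i - 1) := by
      have e5 : i - 1 + (-i - 1) = -2 := by ring
      rw [eq_div_iff e3, ← Real.rpow_add hx0, e5, Real.rpow_neg hx0.le, Real.rpow_two]
    rw [e4]
    ring
  have hpos : ∀ x : ℝ, 1 < x → 0 < i ^ 2 * ((x - 1) ^ (-i - 1) * (1 - x ^ (i - 1))) := by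
    intro x hx
    have h1 : 0 < i ^ 2 := by positivity
    have h2 : 0 < (x - 1) ^ (-i - 1) := Real.rpow_pos_of_pos (by linarith) _
    have h3 : x ^ (i - 1) < 1 := Real.rpow_lt_one_of_one_lt_of_neg hx (by linarith)
    have h4 : 0 < 1 - x ^ (i - 1) := by linarith
    positivity
  apply strictMonoOn_of_deriv_pos (convex_Ioi 1)
  · intro x hx
    exact (hder x hx).continuousAt.continuousWithinAt
  · intro x hx
    rw [interior_Ioi] at hx
    rw [(hder x hx).deriv]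
    exact hpos x hx

/-- T4. Convergence of the ratios. -/
theorem T4_ratio {i A : ℝ} (hi0 : i ≠ 0) (hi1 : i < 1) {ρ κ : ℝ → ℝ} {a b T : ℝ} (ha : 1 < a)
    (hb : ∀ t, T ≤ t → a ≤ ρ t ∧ ρ t ≤ b) (hκ : Tendsto κ atTop (𝓝 A))
    (heq : ∀ t, T ≤ t → (ρ (t + 1) - 1) ^ (-i) + (1 - (ρ t)⁻¹) ^ (-i) = κ t) :
    ∃ Λ : ℝ, 1 < Λ ∧ Tendsto ρ atTop (𝓝 Λ) := by
  classical
  set e : ℝ → ℝ := fun x => (x - 1) ^ (-i) with he
  set f : ℝ → ℝ := fun x => (1 - x⁻¹) ^ (-i) with hf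
  have hmem : ∀ᶠ t in atTop, ρ t ∈ Icc a b := by
    filter_upwards [eventually_ge_atTop T] with t ht using ⟨(hb t ht).1, (hb t ht).2⟩
  -- continuity of e, f at points > 1
  have hce : ∀ x : ℝ, 1 < x → ContinuousAt e x := by
    intro x hx
    apply ContinuousAt.rpow_const
    · fun_prop
    · left; linarith
  have hcf : ∀ x : ℝ, 1 < x → ContinuousAt f x := by
    intro x hx
    have hx0 : x ≠ 0 := by linarith
    have : x⁻¹ < 1 := inv_lt_one_of_one_lt₀ hx
    apply ContinuousAt.rpow_const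
    · exact continuousAt_const.sub (continuousAt_inv₀ hx0)
    · left; linarith
  -- cluster values
  set K : Set ℝ := {x | MapClusterPt x atTop ρ} with hK
  have hKclosed : IsClosed K := isClosed_setOf_clusterPt
  have hKsub : K ⊆ Icc a b := by
    intro x hx
    have hx' : MapClusterPt x atTop ρ := hx
    rw [mapClusterPt_iff_ultrafilter] at hx'
    obtain ⟨U, hU, hUx⟩ := hx'
    have : ∀ᶠ t in (U : Filter ℝ), ρ t ∈ Icc a b := hU hmem
    exact isClosed_Icc.mem_of_tendsto hUx this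
  have hKc : IsCompact K := isCompact_Icc.of_isClosed_subset hKclosed hKsub
  -- every ultrafilter below atTop gives a cluster value
  have hult : ∀ U : Ultrafilter ℝ, (U : Filter ℝ) ≤ atTop → ∃ l ∈ K, Tendsto ρ U (𝓝 l) := by
    intro U hU
    have h1 : ∀ᶠ t in (U : Filter ℝ), ρ t ∈ Icc a b := hU hmem
    have h2 : ((U.map ρ : Ultrafilter ℝ) : Filter ℝ) ≤ 𝓟 (Icc a b) := by
      rw [le_principal_iff]
      exact h1
    obtain ⟨l, hl, hl2⟩ := (isCompact_Icc (a := a) (b := b)).ultrafilter_le_nhds (U.map ρ) h2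
    refine ⟨l, ?_, hl2⟩
    show MapClusterPt l atTop ρ
    rw [mapClusterPt_iff_ultrafilter]
    exact ⟨U, hU, hl2⟩
  have hKne : K.Nonempty := by
    obtain ⟨l, hl, -⟩ := hult (Ultrafilter.of atTop) (Ultrafilter.of_le _)
    exact ⟨l, hl⟩
  -- the relation
  have hrel : ∀ l ∈ K, ∃ l' ∈ K, e l + f l' = A := by
    intro l hl
    have hl1 : 1 < l := lt_of_lt_of_le ha (hKsub hl).1
    have hl' : MapClusterPt l atTop ρ := hl
    rw [mapClusterPt_iff_ultrafilter] at hl'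
    obtain ⟨U, hU, hUx⟩ := hl'
    have hsub : Tendsto (fun t : ℝ => t - 1) U atTop :=
      (tendsto_atTop_add_const_right atTop (-1) tendsto_id).mono_left hU
    have hV : ((U.map (fun t : ℝ => t - 1) : Ultrafilter ℝ) : Filter ℝ) ≤ atTop := hsub
    obtain ⟨l', hl'K, hl't⟩ := hult _ hV
    have hl'1 : 1 < l' := lt_of_lt_of_le ha (hKsub hl'K).1
    refine ⟨l', hl'K, ?_⟩
    have t1 : Tendsto (fun t => ρ (t - 1)) U (𝓝 l') := by
      have := hl't
      rw [Ultrafilter.coe_map, tendsto_map'_iff] at this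
      exact this
    have t2 : Tendsto (fun t => e (ρ t) + f (ρ (t - 1))) U (𝓝 (e l + f l')) :=
      ((hce l hl1).tendsto.comp hUx).add ((hcf l' hl'1).tendsto.comp t1)
    have t3 : Tendsto (fun t => κ (t - 1)) U (𝓝 A) := hκ.comp hsub
    have t4 : ∀ᶠ t in (U : Filter ℝ), κ (t - 1) = e (ρ t) + f (ρ (t - 1)) := by
      have : ∀ᶠ t in (U : Filter ℝ), T + 1 ≤ t := hU (eventually_ge_atTop (T + 1))
      filter_upwards [this] with t ht
      have := heq (t - 1) (by linarith)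
      rw [sub_add_cancel] at this
      exact this.symm
    exact tendsto_nhds_unique (t2.congr' (t4.mono fun t ht => ht.symm)) t3
  obtain ⟨Lp, hLpK, hLp⟩ := hKc.exists_isGreatest hKne
  obtain ⟨Lm, hLmK, hLm⟩ := hKc.exists_isLeast hKne
  have hLp1 : 1 < Lp := lt_of_lt_of_le ha (hKsub hLpK).1
  have hLm1 : 1 < Lm := lt_of_lt_of_le ha (hKsub hLmK).1
  obtain ⟨l', hl'K, h1⟩ := hrel Lp hLpK
  obtain ⟨l'', hl''K, h2⟩ := hrel Lm hLmK
  have hfm : ∀ x y : ℝ, 1 < x → x ≤ y → i * f y ≤ i * f x := by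
    intro x y hx hxy
    have hy : 1 < y := lt_of_lt_of_le hx hxy
    have hx0 : 0 < 1 - x⁻¹ := by
      have : x⁻¹ < 1 := inv_lt_one_of_one_lt₀ hx
      linarith
    have hxy' : 1 - x⁻¹ ≤ 1 - y⁻¹ := by
      have : y⁻¹ ≤ x⁻¹ := inv_anti₀ (by linarith) hxy
      linarith
    rcases lt_or_gt_of_ne hi0 with h | h
    · have : f x ≤ f y := Real.rpow_le_rpow hx0.le hxy' (by linarith)
      nlinarith
    · have : f y ≤ f x := Real.rpow_le_rpow_of_nonpos hx0 hxy' (by linarith)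
      nlinarith
  have h3 : i * f Lp ≤ i * f l'' := hfm l'' Lp (lt_of_lt_of_le ha (hKsub hl''K).1) (hLp hl''K)
  have h4 : i * f l' ≤ i * f Lm := hfm Lm l' hLm1 (hLm hl'K)
  have h5 : i * (f Lp - e Lp) ≤ i * (f Lm - e Lm) := by
    have e1 : i * e Lp = i * A - i * f l' := by rw [← h1]; ring
    have e2 : i * e Lm = i * A - i * f l'' := by rw [← h2]; ring
    rw [mul_sub, mul_sub, e1, e2]
    linarith
  have h6 : Lp ≤ Lm := by
    by_contra hcon
    push Not at hcon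
    have := T4_mono hi0 hi1 (mem_Ioi.2 hLm1) (mem_Ioi.2 hLp1) hcon
    simp only [] at this
    exact absurd h5 (not_le.2 this)
  refine ⟨Lp, hLp1, ?_⟩
  refine isCompact_Icc.tendsto_nhds_of_unique_mapClusterPt hmem ?_
  intro x _ hx
  exact le_antisymm (hLp hx) (h6.trans (hLm hx))

end Pool.Agent.H892R2.EC
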