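import Pool.Agent.H892R2.EC.Defs
import Pool.Agent.H892R2.EC.T4

/-!
# T6: from `Φ` to `τ` (helper619)
-/

namespace Pool.Agent.H892R2.EC

open Set Filter Topology

/-- T6. From `Φ` to `τ`. -/
theorem T6_trans {i A : ℝ} (hi0 : i ≠ 0) (hi1 : i < 1) {Φ : ℝ → ℝ} (hm : StrictMono Φ)
    (hs : Function.Surjective Φ) (ho : ∀ t, Φ (-t) = - Φ t)
    (he : ∀ t, (Φ (t + 1) - Φ t) ^ (-i) + (Φ t - Φ (t - 1)) ^ (-i)
        = A * (1 + (Φ t) ^ 2) ^ (-i / 2))
    {a b T : ℝ} (ha : 1 < a)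
    (hb : ∀ t, T ≤ t → 0 < Φ t ∧ a * Φ t ≤ Φ (t + 1) ∧ Φ (t + 1) ≤ b * Φ t) :
    ∃ τ : ℝ → ℝ, Trans i A τ ∧ ∃ Λ : ℝ, 1 < Λ ∧ Tendsto (fun c => τ c / c) atTop (𝓝 Λ) := by
  classical
  set e : ℝ ≃o ℝ := StrictMono.orderIsoOfSurjective Φ hm hs with he0
  have heΦ : ∀ t, e t = Φ t := fun t => rfl
  set G : ℝ → ℝ := fun c => e.symm c with hG
  have hΦG : ∀ c, Φ (G c) = c := fun c => by
    rw [← heΦ]
    exact e.apply_symm_apply c
  have hGΦ : ∀ t, G (Φ t) = t := fun t => by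
    rw [← heΦ]
    exact e.symm_apply_apply t
  have hGodd : ∀ c, G (-c) = - G c := by
    intro c
    have h1 : Φ (- G c) = - c := by rw [ho, hΦG]
    rw [← h1, hGΦ]
  have hGm : StrictMono G := e.symm.strictMono
  have hGt : Tendsto G atTop atTop := e.symm.tendsto_atTop
  have hΦt : Tendsto Φ atTop atTop := e.tendsto_atTop
  refine ⟨fun c => Φ (G c + 1), ⟨?_, ?_, ?_, ?_⟩, ?_⟩
  · intro x y hxy
    exact hm (by have := hGm hxy; linarith)
  · intro c
    have h1 : - Φ (G c + 1) = Φ (-(G c + 1)) := (ho _).symm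
    show Φ (G (-(Φ (G c + 1))) + 1) = -c
    rw [h1, hGΦ]
    have h2 : -(G c + 1) + 1 = - G c := by ring
    rw [h2, ho, hΦG]
  · intro c
    show c < Φ (G c + 1)
    calc c = Φ (G c) := (hΦG c).symm
      _ < Φ (G c + 1) := hm (by linarith)
  · intro c
    have h1 := he (G c)
    rw [hΦG] at h1
    have h2 : Φ (G (-c) + 1) = - Φ (G c - 1) := by
      rw [hGodd, ← ho]
      congr 1
      ring
    show (Φ (G c + 1) - c) ^ (-i) + (Φ (G (-c) + 1) + c) ^ (-i) = _
    rw [h2, ← h1]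
    congr 2
    ring
  · set ρ : ℝ → ℝ := fun t => Φ (t + 1) / Φ t with hρ
    set κ : ℝ → ℝ := fun t => (ρ (t + 1) - 1) ^ (-i) + (1 - (ρ t)⁻¹) ^ (-i) with hκd
    have hκe : ∀ t, T ≤ t → κ t = A * (1 + ((Φ (t + 1)) ^ 2)⁻¹) ^ (-i / 2) := by
      intro t ht
      obtain ⟨p0, p1, p2⟩ := hb t ht
      obtain ⟨q0, q1, q2⟩ := hb (t + 1) (by linarith)
      have h1 := he (t + 1)
      rw [add_sub_cancel_right] at h1
      have e1 : ρ (t + 1) - 1 = (Φ (t + 1 + 1) - Φ (t + 1)) / Φ (t + 1) := by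
        rw [hρ]
        field_simp
      have e2 : 1 - (ρ t)⁻¹ = (Φ (t + 1) - Φ t) / Φ (t + 1) := by
        rw [hρ]
        field_simp
      have m1 : Φ (t + 1) < Φ (t + 1 + 1) := hm (by linarith)
      have m0 : Φ t < Φ (t + 1) := hm (by linarith)
      rw [hκd]
      simp only
      rw [e1, e2, Real.div_rpow (by linarith) q0.le, Real.div_rpow (by linarith) q0.le,
        ← add_div, h1]
      have e3 : Φ (t + 1) ^ (-i) = (Φ (t + 1) ^ 2) ^ (-i / 2) := by
        rw [← Real.rpow_natCast, ← Real.rpow_mul q0.le]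
        congr 1
        push_cast
        ring
      rw [e3, mul_div_assoc, ← Real.div_rpow (by positivity) (by positivity)]
      congr 2
      field_simp
      ring
    have hκt : Tendsto κ atTop (𝓝 A) := by
      have h1 : Tendsto (fun t : ℝ => A * (1 + ((Φ (t + 1)) ^ 2)⁻¹) ^ (-i / 2)) atTop
          (𝓝 (A * (1 + 0) ^ (-i / 2))) := by
        apply Tendsto.const_mul
        apply Tendsto.rpow_const
        · apply Tendsto.const_add
          apply Tendsto.inv_tendsto_atTop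
          have h2 : Tendsto (fun t : ℝ => Φ (t + 1)) atTop atTop :=
            hΦt.comp (tendsto_atTop_add_const_right _ _ tendsto_id)
          exact (tendsto_pow_atTop (by norm_num)).comp h2
        · left
          norm_num
      rw [add_zero, Real.one_rpow, mul_one] at h1
      refine h1.congr' ?_
      filter_upwards [eventually_ge_atTop T] with t ht
      exact (hκe t ht).symm
    obtain ⟨Λ, hΛ, hlim⟩ := T4_ratio (T := T) (κ := κ) (ρ := ρ) (b := b) hi0 hi1 ha (by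
      intro t ht
      obtain ⟨p0, p1, p2⟩ := hb t ht
      rw [hρ]
      exact ⟨(le_div_iff₀ p0).2 p1, (div_le_iff₀ p0).2 p2⟩) hκt (fun t _ => rfl)
    refine ⟨Λ, hΛ, ?_⟩
    refine (hlim.comp hGt).congr ?_
    intro c
    simp only [Function.comp, hρ]
    rw [hΦG]

end Pool.Agent.H892R2.EC
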