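import Pool.Agent.H892R2.EC.Defs

/-!
# MP_5e4080_gt: task T7, the derivative criterion (helper495)
-/

namespace Pool.Agent.H892R2.EC

open Set Filter Topology

/-- The derivative of one step of the recursion is positive. -/
theorem t7_step {i A s b' c' : ℝ} {f g : ℝ → ℝ} (hi0 : i ≠ 0) (hf : HasDerivAt f c' s)
    (hg : HasDerivAt g b' s) (hb' : 0 < b') (hc' : 0 < c') (hlt : g s < f s)
    (hbase : (f s - g s) ^ (-i) < A * (1 + (f s) ^ 2) ^ (-i / 2))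
    (hG : (1 + g s * f s) * (F i A (f s) (g s) - f s) ^ (1 + i)
      ≤ (1 + f s * F i A (f s) (g s)) * (f s - g s) ^ (1 + i)) :
    ∃ D : ℝ, 0 < D ∧ HasDerivAt (fun x => F i A (f x) (g x)) D s := by
  set c := f s with hc
  set b := g s with hb
  have hv : 0 < c - b := by linarith
  have hq : 0 < 1 + c ^ 2 := by positivity
  set base := A * (1 + c ^ 2) ^ (-i / 2) - (c - b) ^ (-i) with hbs
  have hbase0 : 0 < base := by linarith
  set w := base ^ (-1 / i) with hw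
  have hw0 : 0 < w := Real.rpow_pos_of_pos hbase0 _
  have hFc : F i A c b = c + w := rfl
  have hwi : w ^ (-i) = base := by
    rw [hw, ← Real.rpow_mul hbase0.le]
    have : -1 / i * -i = 1 := by field_simp
    rw [this, Real.rpow_one]
  -- derivative of base
  have hq' : HasDerivAt (fun x => 1 + (f x) ^ 2) (2 * c * c') s := by
    have := (hf.pow 2).const_add 1
    simpa [hc] using this
  have h1 : HasDerivAt (fun x => A * (1 + (f x) ^ 2) ^ (-i / 2))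
      (A * (2 * c * c' * (-i / 2) * (1 + c ^ 2) ^ (-i / 2 - 1))) s :=
    (hq'.rpow_const (Or.inl hq.ne')).const_mul A
  have h2 : HasDerivAt (fun x => (f x - g x) ^ (-i))
      ((c' - b') * (-i) * (c - b) ^ (-i - 1)) s :=
    (hf.sub hg).rpow_const (Or.inl hv.ne')
  have h3 := ((h1.sub h2).rpow_const (p := -1 / i) (Or.inl hbase0.ne'))
  have h4 := hf.add h3
  refine ⟨_, ?_, h4⟩
  -- positivity
  have e1 : (1 + c ^ 2) ^ (-i / 2 - 1) = (1 + c ^ 2) ^ (-i / 2) / (1 + c ^ 2) := by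
    rw [Real.rpow_sub hq, Real.rpow_one]
  have e2 : (c - b) ^ (-i - 1) = (c - b) ^ (-i) / (c - b) := by
    rw [Real.rpow_sub hv, Real.rpow_one]
  have e3 : base ^ (-1 / i - 1) = w / base := by
    rw [Real.rpow_sub hbase0, Real.rpow_one]
  have e4 : (1 + c ^ 2) ^ (-i / 2) * A = base + (c - b) ^ (-i) := by
    rw [hbs]; ring
  have e5 : (c - b) ^ (1 + i) = (c - b) / (c - b) ^ (-i) := by
    rw [Real.rpow_add hv, Real.rpow_one, Real.rpow_neg hv.le]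
    field_simp
  have e6 : w ^ (1 + i) = w / base := by
    rw [Real.rpow_add hw0, Real.rpow_one, ← hwi, Real.rpow_neg hw0.le]
    field_simp
  set V := (c - b) ^ (-i) with hV
  have hV0 : 0 < V := Real.rpow_pos_of_pos hv _
  rw [hFc, add_sub_cancel_left, e5, e6] at hG
  -- hG : (1 + b*c) * (w/base) ≤ (1 + c*(c+w)) * ((c-b)/V)
  have hG' : (1 + b * c) * w * V ≤ (1 + c * (c + w)) * (c - b) * base := by
    have := mul_le_mul_of_nonneg_right hG (mul_pos hbase0 hV0).le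
    have l1 : (1 + b * c) * (w / base) * (base * V) = (1 + b * c) * w * V := by
      field_simp
    have l2 : (1 + c * (c + w)) * ((c - b) / V) * (base * V) = (1 + c * (c + w)) * (c - b) * base := by
      field_simp
    rw [l1, l2] at this
    exact this
  have key : c' + (A * (2 * c * c' * (-i / 2) * (1 + c ^ 2) ^ (-i / 2 - 1))
      - (c' - b') * (-i) * (c - b) ^ (-i - 1)) * (-1 / i) * base ^ (-1 / i - 1)
      = c' * (((1 + c * (c + w)) * (c - b) * base - (1 + b * c) * w * V)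
          / ((1 + c ^ 2) * (c - b) * base)) + w * V / ((c - b) * base) * b' := by
    rw [e1, e2, e3]
    have e4' : A * (2 * c * c' * (-i / 2) * ((1 + c ^ 2) ^ (-i / 2) / (1 + c ^ 2)))
        = -i * (c * c') * (base + V) / (1 + c ^ 2) := by
      rw [← e4]; ring
    rw [e4']
    field_simp
    ring
  have hgoal : 0 < c' * (((1 + c * (c + w)) * (c - b) * base - (1 + b * c) * w * V)
          / ((1 + c ^ 2) * (c - b) * base)) + w * V / ((c - b) * base) * b' := by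
    have p1 : 0 ≤ ((1 + c * (c + w)) * (c - b) * base - (1 + b * c) * w * V)
          / ((1 + c ^ 2) * (c - b) * base) :=
      div_nonneg (by linarith) (by positivity)
    have p2 : 0 < w * V / ((c - b) * base) * b' := by positivity
    have p3 := mul_nonneg hc'.le p1
    linarith
  rw [← key] at hgoal
  exact hgoal

theorem t7_deriv {i A : ℝ} (hi0 : i ≠ 0) {φ φ' : ℝ → ℝ}
    (hφ : ∀ t, HasDerivAt φ (φ' t) t) (hφ' : ∀ t, 0 < φ' t)
    (hlt : ∀ n, ∀ s ∈ Icc (0:ℝ) 1, X i A φ n s < X i A φ (n + 1) s)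
    (hbase : ∀ n, ∀ s ∈ Icc (0:ℝ) 1,
      (X i A φ (n + 1) s - X i A φ n s) ^ (-i)
        < A * (1 + (X i A φ (n + 1) s) ^ 2) ^ (-i / 2))
    (hG : ∀ n, ∀ s ∈ Icc (0:ℝ) 1,
      (1 + X i A φ n s * X i A φ (n + 1) s)
          * (X i A φ (n + 2) s - X i A φ (n + 1) s) ^ (1 + i)
        ≤ (1 + X i A φ (n + 1) s * X i A φ (n + 2) s)
          * (X i A φ (n + 1) s - X i A φ n s) ^ (1 + i)) (s : ℝ) (hs : s ∈ Icc (0:ℝ) 1) :
    ∀ n, (∃ D : ℝ, 0 < D ∧ HasDerivAt (X i A φ n) D s) ∧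
      (∃ D : ℝ, 0 < D ∧ HasDerivAt (X i A φ (n + 1)) D s) := by
  intro n
  induction n with
  | zero =>
    refine ⟨⟨φ' (s - 1), hφ' _, ?_⟩, ⟨φ' s, hφ' _, ?_⟩⟩
    · have := (hφ (s - 1)).comp s ((hasDerivAt_id s).sub_const 1)
      simpa [X, Function.comp_def] using this
    · have := hφ s
      simpa [X] using this
  | succ n ih =>
    obtain ⟨⟨b', hb', hb⟩, ⟨c', hc', hc⟩⟩ := ih
    refine ⟨⟨c', hc', hc⟩, ?_⟩
    have := t7_step hi0 hc hb hb' hc' (hlt n s hs) (hbase n s hs) (hG n s hs)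
    exact this

theorem t7_cont {i A : ℝ} {φ : ℝ → ℝ} {n : ℕ}
    (h : ∀ s ∈ Icc (0:ℝ) 1, ∃ D : ℝ, 0 < D ∧ HasDerivAt (X i A φ n) D s) :
    ContinuousOn (X i A φ n) (Icc 0 1) := by
  intro s hs
  obtain ⟨D, -, hD⟩ := h s hs
  exact hD.continuousAt.continuousWithinAt

theorem t7_smono {i A : ℝ} {φ : ℝ → ℝ} {n : ℕ}
    (h : ∀ s ∈ Icc (0:ℝ) 1, ∃ D : ℝ, 0 < D ∧ HasDerivAt (X i A φ n) D s) :
    StrictMonoOn (X i A φ n) (Icc 0 1) := by
  refine strictMonoOn_of_deriv_pos (convex_Icc 0 1) (t7_cont h) ?_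
  intro s hs
  rw [interior_Icc] at hs
  obtain ⟨D, hD0, hD⟩ := h s ⟨hs.1.le, hs.2.le⟩
  rw [hD.deriv]
  exact hD0

theorem t7_zero {i A : ℝ} {φ : ℝ → ℝ} (hodd : ∀ t, φ (-t) = - φ t) : X i A φ 1 0 = 0 := by
  have := hodd 0
  rw [neg_zero] at this
  have h0 : φ 0 = 0 := by linarith
  simpa [X] using h0

theorem t7_glue {i q : ℝ} (hi0 : i ≠ 0) (hq : 0 < q) {φ : ℝ → ℝ} (hodd : ∀ t, φ (-t) = - φ t)
    (h1 : φ 1 = q) : ∀ n, X i (2 * q ^ (-i)) φ n 1 = X i (2 * q ^ (-i)) φ (n + 1) 0 ∧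
      X i (2 * q ^ (-i)) φ (n + 1) 1 = X i (2 * q ^ (-i)) φ (n + 2) 0 := by
  have h0 : φ 0 = 0 := by
    have := hodd 0
    rw [neg_zero] at this
    linarith
  have hm1 : φ (-1) = - q := by rw [hodd, h1]
  intro n
  induction n with
  | zero =>
    refine ⟨by simp [X], ?_⟩
    have e1 : X i (2 * q ^ (-i)) φ (0 + 1) 1 = q := by simpa [X] using h1
    have e2 : X i (2 * q ^ (-i)) φ (0 + 2) 0 = F i (2 * q ^ (-i)) (φ 0) (φ (0 - 1)) := rfl
    rw [e1, e2, zero_sub, hm1, h0]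
    unfold F
    have hqi : 0 < q ^ (-i) := Real.rpow_pos_of_pos hq _
    have e3 : 2 * q ^ (-i) * (1 + (0:ℝ) ^ 2) ^ (-i / 2) - (0 - -q) ^ (-i) = q ^ (-i) := by
      norm_num
      ring
    rw [e3, ← Real.rpow_mul hq.le]
    have : -i * (-1 / i) = 1 := by field_simp
    rw [this, Real.rpow_one, zero_add]
  | succ n ih =>
    refine ⟨ih.2, ?_⟩
    change F i (2 * q ^ (-i)) (X i (2 * q ^ (-i)) φ (n + 1) 1) (X i (2 * q ^ (-i)) φ n 1) =
      F i (2 * q ^ (-i)) (X i (2 * q ^ (-i)) φ (n + 2) 0) (X i (2 * q ^ (-i)) φ (n + 1) 0)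
    rw [ih.1, ih.2]

theorem t7_eqn {i A b c : ℝ} (hi0 : i ≠ 0) 
    (hbase : (c - b) ^ (-i) < A * (1 + c ^ 2) ^ (-i / 2)) :
    (F i A c b - c) ^ (-i) + (c - b) ^ (-i) = A * (1 + c ^ 2) ^ (-i / 2) := by
  unfold F
  rw [add_sub_cancel_left, ← Real.rpow_mul (by linarith)]
  have : -1 / i * -i = 1 := by field_simp
  rw [this, Real.rpow_one]
  ring

/-- T7. Orbits of the recursion satisfying the monotonicity criterion form `OrbitData`. -/
theorem T7_orbit {i q : ℝ} (hi0 : i ≠ 0) (hi1 : i < 1) (hq : 0 < q) {φ φ' : ℝ → ℝ}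
    (hφ : ∀ t, HasDerivAt φ (φ' t) t) (hφ' : ∀ t, 0 < φ' t) (hodd : ∀ t, φ (-t) = - φ t)
    (h1 : φ 1 = q)
    (hlt : ∀ n, ∀ s ∈ Icc (0:ℝ) 1, X i (2 * q ^ (-i)) φ n s < X i (2 * q ^ (-i)) φ (n + 1) s)
    (hbase : ∀ n, ∀ s ∈ Icc (0:ℝ) 1,
      (X i (2 * q ^ (-i)) φ (n + 1) s - X i (2 * q ^ (-i)) φ n s) ^ (-i)
        < (2 * q ^ (-i)) * (1 + (X i (2 * q ^ (-i)) φ (n + 1) s) ^ 2) ^ (-i / 2))
    (hG : ∀ n, ∀ s ∈ Icc (0:ℝ) 1,
      (1 + X i (2 * q ^ (-i)) φ n s * X i (2 * q ^ (-i)) φ (n + 1) s)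
          * (X i (2 * q ^ (-i)) φ (n + 2) s - X i (2 * q ^ (-i)) φ (n + 1) s) ^ (1 + i)
        ≤ (1 + X i (2 * q ^ (-i)) φ (n + 1) s * X i (2 * q ^ (-i)) φ (n + 2) s)
          * (X i (2 * q ^ (-i)) φ (n + 1) s - X i (2 * q ^ (-i)) φ n s) ^ (1 + i))
    (hr : ∃ a b : ℝ, 1 < a ∧ ∀ n, 2 ≤ n → ∀ s ∈ Icc (0:ℝ) 1,
      0 < X i (2 * q ^ (-i)) φ n s ∧
      a * X i (2 * q ^ (-i)) φ n s ≤ X i (2 * q ^ (-i)) φ (n + 1) s ∧
      X i (2 * q ^ (-i)) φ (n + 1) s ≤ b * X i (2 * q ^ (-i)) φ n s) :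
    OrbitData i (2 * q ^ (-i)) (X i (2 * q ^ (-i)) φ) := by
  have H := fun s hs => t7_deriv hi0 hφ hφ' hlt hbase hG s hs
  have H' : ∀ n, ∀ s ∈ Icc (0:ℝ) 1,
      ∃ D : ℝ, 0 < D ∧ HasDerivAt (X i (2 * q ^ (-i)) φ n) D s := fun n s hs => (H s hs n).1
  refine ⟨?_, t7_zero hodd, hlt, ?_, fun n => t7_smono (H' n), fun n => t7_cont (H' n),
    fun n => (t7_glue hi0 hq hodd h1 n).1, hr⟩
  · intro s _
    change φ (s - 1) = - φ (1 - s)
    rw [← hodd, neg_sub]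
  · intro n s hs
    exact t7_eqn hi0 (hbase n s hs)

end Pool.Agent.H892R2.EC
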