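import Pool.Agent.H892R2.EC.Defs

/-!
# MP_5e4080_gt: task T8 (negative i: all estimates for one orbit), by helper380
-/

namespace Pool.Agent.H892R2.EC

open Set Filter Topology

theorem T8_sqrt (i c : ℝ) : (1 + c ^ 2) ^ (-i / 2) = (Real.sqrt (1 + c ^ 2)) ^ (-i) := by
  rw [Real.sqrt_eq_rpow, ← Real.rpow_mul (by positivity)]
  congr 1
  ring

/-- One step: estimates of `w = (2 * 3^(-i) r^(-i) - v^(-i))^(-1/i)`. -/
theorem T8_step {i : ℝ} (hi : i < 0) {c b : ℝ} (hv : b < c)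
    (hvr : c - b ≤ 3 * Real.sqrt (1 + c ^ 2)) :
    (c - b) ^ (-i) < (2 * 3 ^ (-i)) * (1 + c ^ 2) ^ (-i / 2) ∧
    3 * Real.sqrt (1 + c ^ 2) ≤ F i (2 * 3 ^ (-i)) c b - c ∧
    (F i (2 * 3 ^ (-i)) c b - c) ^ (-i) = (2 * 3 ^ (-i)) * (1 + c ^ 2) ^ (-i / 2)
      - (c - b) ^ (-i) ∧
    F i (2 * 3 ^ (-i)) c b - c ≤ (2:ℝ) ^ (-1 / i) * (3 * Real.sqrt (1 + c ^ 2)) := by
  have hp : 0 < -i := by linarith
  set r := Real.sqrt (1 + c ^ 2) with hr
  have hr0 : 0 < r := Real.sqrt_pos.mpr (by positivity)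
  have hv0 : 0 < c - b := by linarith
  have e1 : (2 * (3:ℝ) ^ (-i)) * (1 + c ^ 2) ^ (-i / 2) = 2 * (3 * r) ^ (-i) := by
    rw [T8_sqrt, Real.mul_rpow (by norm_num) hr0.le]; ring
  have h1 : (c - b) ^ (-i) ≤ (3 * r) ^ (-i) := Real.rpow_le_rpow hv0.le hvr hp.le
  have h3r : 0 < (3 * r) ^ (-i) := Real.rpow_pos_of_pos (by positivity) _
  have hv1 : 0 < (c - b) ^ (-i) := Real.rpow_pos_of_pos hv0 _
  have hF : F i (2 * 3 ^ (-i)) c b - c = (2 * (3 * r) ^ (-i) - (c - b) ^ (-i)) ^ (-1 / i) := by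
    unfold F
    rw [e1]
    ring
  have hexp : (-i) * (-1 / i) = 1 := by
    have : i ≠ 0 := hi.ne
    field_simp
  have hexp' : (-1 / i) * (-i) = 1 := by rw [mul_comm]; exact hexp
  have hpos : 0 < -1 / i := by
    rw [neg_div, ← div_neg]
    exact one_div_pos.mpr hp
  have hbase : (3 * r) ^ (-i) ≤ 2 * (3 * r) ^ (-i) - (c - b) ^ (-i) := by linarith
  refine ⟨by rw [e1]; linarith, ?_, ?_, ?_⟩
  · rw [hF]
    calc 3 * r = ((3 * r) ^ (-i)) ^ (-1 / i) := by
          rw [← Real.rpow_mul (by positivity), hexp, Real.rpow_one]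
      _ ≤ _ := Real.rpow_le_rpow h3r.le hbase hpos.le
  · rw [hF, e1, ← Real.rpow_mul (by linarith), hexp', Real.rpow_one]
  · rw [hF]
    calc (2 * (3 * r) ^ (-i) - (c - b) ^ (-i)) ^ (-1 / i)
        ≤ (2 * (3 * r) ^ (-i)) ^ (-1 / i) :=
          Real.rpow_le_rpow (by linarith) (by linarith) hpos.le
      _ = (2:ℝ) ^ (-1 / i) * (3 * r) := by
          rw [Real.mul_rpow (by norm_num) h3r.le, ← Real.rpow_mul (by positivity), hexp,
            Real.rpow_one]

/-- The monotonicity criterion from `(1+c²)(w-v) ≤ 2cvw`. -/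
theorem T8_mono {i : ℝ} (hi : i < 0) {b c c' : ℝ} (hc : 0 ≤ c) (hbc : b < c) (hcc : c < c')
    (hvw : c - b ≤ c' - c) (h : -1 < i → (1 + c ^ 2) * ((c' - c) - (c - b))
      ≤ 2 * c * (c - b) * (c' - c)) :
    (1 + b * c) * (c' - c) ^ (1 + i) ≤ (1 + c * c') * (c - b) ^ (1 + i) := by
  have hv : 0 < c - b := by linarith
  have hw : 0 < c' - c := by linarith
  have hcc' : 0 ≤ 1 + c * c' := by nlinarith
  rcases le_or_gt (1 + i) 0 with he | he
  · have h1 : (c' - c) ^ (1 + i) ≤ (c - b) ^ (1 + i) :=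
      Real.rpow_le_rpow_of_nonpos hv hvw he
    calc (1 + b * c) * (c' - c) ^ (1 + i) ≤ (1 + c * c') * (c' - c) ^ (1 + i) := by
          apply mul_le_mul_of_nonneg_right _ (Real.rpow_nonneg hw.le _)
          nlinarith
      _ ≤ _ := mul_le_mul_of_nonneg_left h1 hcc'
  · have hi1 : -1 < i := by linarith
    have hkey := h hi1
    have h0 : (1 + b * c) * (c' - c) ≤ (1 + c * c') * (c - b) := by nlinarith
    have h1 : (c' - c) ^ i ≤ (c - b) ^ i := Real.rpow_le_rpow_of_nonpos hv hvw hi.le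
    have e1 : (c' - c) ^ (1 + i) = (c' - c) * (c' - c) ^ i := by
      rw [Real.rpow_add hw, Real.rpow_one]
    have e2 : (c - b) ^ (1 + i) = (c - b) * (c - b) ^ i := by
      rw [Real.rpow_add hv, Real.rpow_one]
    rw [e1, e2, ← mul_assoc, ← mul_assoc]
    calc (1 + b * c) * (c' - c) * (c' - c) ^ i
        ≤ (1 + c * c') * (c - b) * (c' - c) ^ i :=
          mul_le_mul_of_nonneg_right h0 (Real.rpow_nonneg hw.le _)
      _ ≤ _ := mul_le_mul_of_nonneg_left h1 (mul_nonneg hcc' hv.le)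

/-- T8. Negative `i`: `φ t = 3 t`, `q = 3`. One orbit. -/
theorem T8_neg {i : ℝ} (hi : i < 0) (x : ℕ → ℝ) (s : ℝ) (hs : s ∈ Icc (0:ℝ) 1)
    (h0 : x 0 = 3 * (s - 1)) (h1 : x 1 = 3 * s)
    (hx : ∀ n, x (n + 2) = F i (2 * 3 ^ (-i)) (x (n + 1)) (x n)) :
    (∀ n, x n < x (n + 1)) ∧
    (∀ n, (x (n + 1) - x n) ^ (-i) < (2 * 3 ^ (-i)) * (1 + (x (n + 1)) ^ 2) ^ (-i / 2)) ∧
    (∀ n, (1 + x n * x (n + 1)) * (x (n + 2) - x (n + 1)) ^ (1 + i)
        ≤ (1 + x (n + 1) * x (n + 2)) * (x (n + 1) - x n) ^ (1 + i)) ∧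
    (∀ n, 2 ≤ n → 0 < x n ∧ 4 * x n ≤ x (n + 1) ∧
      x (n + 1) ≤ (1 + 6 * (2:ℝ) ^ (-1 / i)) * x n) := by
  obtain ⟨hs0, hs1⟩ := hs
  have hsq : ∀ c : ℝ, c ≤ Real.sqrt (1 + c ^ 2) := fun c =>
    Real.le_sqrt_of_sq_le (by linarith)
  have hsq1 : ∀ c : ℝ, 1 ≤ Real.sqrt (1 + c ^ 2) := fun c =>
    Real.one_le_sqrt.mpr (by nlinarith [sq_nonneg c])
  -- invariant
  have hI : ∀ n, 0 ≤ x (n + 1) ∧ x n < x (n + 1) ∧
      x (n + 1) - x n ≤ 3 * Real.sqrt (1 + (x (n + 1)) ^ 2) := by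
    intro n
    induction n with
    | zero =>
      refine ⟨by rw [zero_add, h1]; linarith, by rw [zero_add, h1, h0]; linarith, ?_⟩
      rw [zero_add, h1, h0]
      have := hsq1 (3 * s)
      linarith
    | succ n ih =>
      obtain ⟨i1, i2, i3⟩ := ih
      obtain ⟨s1, s2, s3, s4⟩ := T8_step hi i2 i3
      rw [← hx n] at s2
      have a1 := hsq1 (x (n + 1))
      have a2 := hsq (x (n + 2))
      have a3 := hsq1 (x (n + 2))
      refine ⟨?_, ?_, ?_⟩
      · show 0 ≤ x (n + 2)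
        linarith
      · show x (n + 1) < x (n + 2)
        linarith
      · show x (n + 2) - x (n + 1) ≤ 3 * Real.sqrt (1 + (x (n + 2)) ^ 2)
        linarith
  have hS := fun n => T8_step hi (hI n).2.1 (hI n).2.2
  have hJ : ∀ n, 3 * Real.sqrt (1 + (x (n + 1)) ^ 2) ≤ x (n + 2) - x (n + 1) := by
    intro n
    have := (hS n).2.1
    rwa [← hx n] at this
  refine ⟨fun n => (hI n).2.1, fun n => (hS n).1, ?_, ?_⟩
  · intro n
    have hvw : x (n + 1) - x n ≤ x (n + 2) - x (n + 1) := (hI n).2.2.trans (hJ n)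
    apply T8_mono hi (hI n).1 (hI n).2.1 (hI (n + 1)).2.1 hvw
    intro hi1
    rcases Nat.eq_zero_or_pos n with rfl | hn
    · -- first step
      have hw := (hS 0).2.2.1
      rw [← hx 0] at hw
      simp only [zero_add] at *
      have hc3 : x 1 ≤ 3 := by rw [h1]; linarith
      have hc0 : 0 ≤ x 1 := by rw [h1]; linarith
      have hv3 : x 1 - x 0 = 3 := by rw [h1, h0]; ring
      rw [hv3] at hw ⊢
      set c := x 1 with hc
      set w := x 2 - c with hwdef
      have hJ0 := hJ 0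
      simp only [zero_add] at hJ0
      have hr1 := hsq1 c
      set r := Real.sqrt (1 + c ^ 2) with hr
      have hr2 : r ^ 2 = 1 + c ^ 2 := Real.sq_sqrt (by positivity)
      have hw0 : 0 < w := by
        have : 3 * r ≤ w := hJ0
        linarith
      have hwle : w ≤ 3 * (1 + c ^ 2) := by
        have hp : 0 < -i := by linarith
        have h3 : w ^ (-i) ≤ (3 * (1 + c ^ 2)) ^ (-i) := by
          rw [hw, T8_sqrt, ← hr, ← hr2, Real.mul_rpow (by norm_num) (by positivity)]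
          have e3 : (r ^ 2) ^ (-i) = r ^ (-i) * r ^ (-i) := by
            rw [pow_two, Real.mul_rpow (by linarith) (by linarith)]
          rw [e3]
          have h3p : 0 < (3:ℝ) ^ (-i) := Real.rpow_pos_of_pos (by norm_num) _
          nlinarith [mul_nonneg h3p.le (sq_nonneg (r ^ (-i) - 1))]
        by_contra hcon
        push Not at hcon
        have := Real.rpow_lt_rpow (by positivity) hcon hp
        linarith
      rcases le_or_gt (1 + c ^ 2 - 6 * c) 0 with h6 | h6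
      · nlinarith [mul_nonneg hw0.le (neg_nonneg.mpr h6)]
      · have h7 : 1 + c ^ 2 - 6 * c ≤ 1 := by nlinarith
        have h8 : w * (1 + c ^ 2 - 6 * c) ≤ 3 * (1 + c ^ 2) * 1 :=
          mul_le_mul hwle h7 h6.le (by positivity)
        nlinarith
    · -- later steps
      obtain ⟨m, rfl⟩ : ∃ m, n = m + 1 := ⟨n - 1, by omega⟩
      have hb0 := (hI m).1
      have hJm := hJ m
      have hr1 := hsq1 (x (m + 1))
      have hr2 := hsq (x (m + 1))
      have hlt := (hI (m + 1)).2.1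
      have hlt2 := (hI (m + 2)).2.1
      show (1 + x (m + 2) ^ 2) * (x (m + 3) - x (m + 2) - (x (m + 2) - x (m + 1))) ≤
        2 * x (m + 2) * (x (m + 2) - x (m + 1)) * (x (m + 3) - x (m + 2))
      set b := x (m + 1) with hb
      have hlt' : b < x (m + 2) := hlt
      have hlt2' : x (m + 2) < x (m + 3) := hlt2
      set c := x (m + 2) with hc
      set v := c - b with hv
      have hv3 : 3 ≤ v := by linarith
      have hvb : 3 * b ≤ v := by linarith
      have hcv : c = b + v := by rw [hv]; ring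
      have hw0 : 0 < x (m + 3) - c := by linarith
      have h2 : 1 + c ^ 2 ≤ 2 * c * v := by
        have hc1 : c ≤ 4 / 3 * v := by linarith
        have hc2 : v ≤ c := by linarith
        nlinarith
      have h3 : (1 + c ^ 2) * (x (m + 3) - c - v) ≤ (1 + c ^ 2) * (x (m + 3) - c) := by
        apply mul_le_mul_of_nonneg_left _ (by positivity)
        linarith
      exact h3.trans (mul_le_mul_of_nonneg_right h2 hw0.le)
  · intro n hn
    obtain ⟨m, rfl⟩ : ∃ m, n = m + 2 := ⟨n - 2, by omega⟩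
    have hJm := hJ m
    have hJm1 := hJ (m + 1)
    have hm0 := (hI m).1
    have hr1 := hsq1 (x (m + 1))
    have hS1 := (hS (m + 1)).2.2.2
    rw [← hx (m + 1)] at hS1
    change x (m + 3) - x (m + 2) ≤ 2 ^ (-1 / i) * (3 * Real.sqrt (1 + x (m + 2) ^ 2)) at hS1
    change 3 * Real.sqrt (1 + x (m + 2) ^ 2) ≤ x (m + 3) - x (m + 2) at hJm1
    show 0 < x (m + 2) ∧ 4 * x (m + 2) ≤ x (m + 3) ∧
      x (m + 3) ≤ (1 + 6 * 2 ^ (-1 / i)) * x (m + 2)
    have hc3 : 3 ≤ x (m + 2) := by linarith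
    have hr2 := hsq (x (m + 2))
    have hr3 : Real.sqrt (1 + x (m + 2) ^ 2) ≤ 2 * x (m + 2) := by
      apply Real.sqrt_le_iff.mpr
      constructor
      · linarith
      · nlinarith
    refine ⟨by linarith, by linarith, ?_⟩
    have h2p : 0 < (2:ℝ) ^ (-1 / i) := Real.rpow_pos_of_pos (by norm_num) _
    nlinarith [mul_le_mul_of_nonneg_left hr3 h2p.le]

end Pool.Agent.H892R2.EC
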