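import Mathlib

/-!
# MP_5e4080_gt, task T9a (helper430)
-/

set_option autoImplicit false

namespace Pool.Agent.H892R2.EC

/-- T9a. Elementary inequalities for `α^i + β^i = 2`, `0 < i < 1`. -/
theorem T9a_basic {i α β : ℝ} (hi0 : 0 < i) (hi1 : i < 1) (hα : 0 < α) (hα1 : α ≤ 1)
    (hβ : 1 ≤ β) (h : α ^ i + β ^ i = 2) :
    2 ≤ α + β ∧ α * β ≤ 1 ∧
    ((β - α) / 2 ≤ 1 / 2 →
      β ^ (1 + i) - α ^ (1 + i) ≤ (β - α) * (1 + i + i * ((β - α) / 2))) := by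
  have hβ0 : 0 < β := by linarith
  have ha := rpow_one_add_le_one_add_mul_self (s := α - 1) (p := i) (by linarith) hi0.le hi1.le
  have hb := rpow_one_add_le_one_add_mul_self (s := β - 1) (p := i) (by linarith) hi0.le hi1.le
  rw [add_sub_cancel] at ha hb
  have hsum : 2 ≤ α + β := by
    have : 0 ≤ i * (α + β - 2) := by nlinarith
    have := (mul_nonneg_iff_of_pos_left hi0).mp this
    linarith
  have hprod : α * β ≤ 1 := by
    by_contra hc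
    have hc' : 1 < α * β := not_le.mp hc
    have h1 : 1 < (α * β) ^ i := Real.one_lt_rpow hc' hi0
    rw [Real.mul_rpow hα.le hβ0.le] at h1
    nlinarith [sq_nonneg (α ^ i - β ^ i)]
  refine ⟨hsum, hprod, fun hd => ?_⟩
  have e1 : β ^ (1 + i) = β * β ^ i := by rw [Real.rpow_add hβ0, Real.rpow_one]
  have e2 : α ^ (1 + i) = α * α ^ i := by rw [Real.rpow_add hα, Real.rpow_one]
  rw [e1, e2]
  obtain ⟨δ, hδ⟩ : ∃ δ, δ = (β - α) / 2 := ⟨_, rfl⟩
  obtain ⟨σ, hσ⟩ : ∃ σ, σ = (β + α) / 2 := ⟨_, rfl⟩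
  have hβe : β = σ + δ := by rw [hδ, hσ]; ring
  have hαe : α = σ - δ := by rw [hδ, hσ]; ring
  have hδ0 : 0 ≤ δ := by rw [hδ]; linarith
  have hδ1 : δ ≤ 1 / 2 := by rw [hδ]; exact hd
  have hσ1 : 1 ≤ σ := by rw [hσ]; linarith
  have hσ2 : σ ≤ 1 + δ ^ 2 / 2 := by
    have : σ ^ 2 ≤ (1 + δ ^ 2 / 2) ^ 2 := by
      have : α * β = σ ^ 2 - δ ^ 2 := by rw [hαe, hβe]; ring
      nlinarith [sq_nonneg (δ ^ 2)]
    exact (pow_le_pow_iff_left₀ (by linarith) (by positivity) two_ne_zero).mp this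
  have hD : β * β ^ i - α * α ^ i ≤ 2 * δ + 2 * i * σ * (β - 1) := by
    have h2 : 1 - i * (β - 1) ≤ α ^ i := by linarith
    have h3 : β ^ i = 2 - α ^ i := by linarith
    rw [h3]
    have h4 : 0 ≤ 2 * σ * (α ^ i - (1 - i * (β - 1))) := by
      apply mul_nonneg <;> linarith
    have h5 : β * (2 - α ^ i) - α * α ^ i = 2 * β - 2 * σ * α ^ i := by rw [hσ]; ring
    rw [h5]
    have h6 : 2 * δ = 2 * β - 2 * σ := by rw [hβe]; ring
    rw [h6]
    nlinarith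
  refine hD.trans ?_
  have h7 : β - α = 2 * δ := by rw [hδ]; ring
  rw [h7]
  have h8 : σ * (β - 1) ≤ (1 + δ ^ 2 / 2) * (δ + δ ^ 2 / 2) := by
    apply mul_le_mul hσ2 _ (by linarith) (by positivity)
    rw [hβe]; linarith
  have h9 : (1 + δ ^ 2 / 2) * (δ + δ ^ 2 / 2) ≤ δ * (1 + δ) := by
    have : δ * ((1 + δ) - (1 + δ ^ 2 / 2) * (1 + δ / 2)) ≥ 0 := by
      apply mul_nonneg hδ0
      nlinarith [mul_nonneg hδ0 hδ0]
    nlinarith
  have h10 : i * (σ * (β - 1)) ≤ i * (δ * (1 + δ)) := mul_le_mul_of_nonneg_left (h8.trans h9) hi0.le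
  have h11 : 2 * δ / 2 = δ := by ring
  rw [h11]
  nlinarith

end Pool.Agent.H892R2.EC
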