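import Mathlib

/-!
# MP_5e4080_gt: task T9b
-/

namespace Pool.Agent.H892R2.EC

open Set Filter Topology

/-- tangent line of a concave power -/
theorem T9b_tan {i x y : ℝ} (hi0 : 0 < i) (hi1 : i < 1) (hx : 0 < x) (hy : 0 < y) :
    y ^ i - x ^ i ≤ i * x ^ (i - 1) * (y - x) := by
  have h := rpow_one_add_le_one_add_mul_self (s := y / x - 1)
    (by have : 0 < y / x := div_pos hy hx
        linarith) hi0.le hi1.le
  have e1 : (1 + (y / x - 1)) = y / x := by ring
  rw [e1, Real.div_rpow hy.le hx.le] at h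
  have hxi : 0 < x ^ i := Real.rpow_pos_of_pos hx i
  have h2 : y ^ i ≤ (1 + i * (y / x - 1)) * x ^ i := by
    rwa [div_le_iff₀ hxi] at h
  have h3 : x ^ (i - 1) = x ^ i / x := by
    rw [Real.rpow_sub hx, Real.rpow_one]
  rw [h3]
  have h4 : (1 + i * (y / x - 1)) * x ^ i = x ^ i + i * (x ^ i / x) * (y - x) := by
    field_simp
  linarith

/-- T9b. The slope of `β ↦ α` is between `-1` and `-α'/β'`. -/
theorem T9b_lip {i α β α' β' : ℝ} (hi0 : 0 < i) (hi1 : i < 1) (hα' : 0 < α')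
    (hα1 : α ≤ 1) (hα : 0 < α) (hα'1 : α' ≤ 1) (hβ : 1 ≤ β) (hββ : β ≤ β') (h : α ^ i + β ^ i = 2)
    (h' : α' ^ i + β' ^ i = 2) :
    α - α' ≤ β' - β ∧ (α' / β') * (β' - β) ≤ α - α' := by
  have hβ0 : 0 < β := by linarith
  have hβ'0 : 0 < β' := by linarith
  have hbb : β ^ i ≤ β' ^ i := Real.rpow_le_rpow hβ0.le hββ hi0.le
  have haa : α' ^ i ≤ α ^ i := by linarith
  have hαα : α' ≤ α := (Real.rpow_le_rpow_iff hα'.le hα.le hi0).mp haa
  constructor
  · have t1 := T9b_tan hi0 hi1 hβ0 hβ'0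
    have t2 := T9b_tan hi0 hi1 hα hα'
    have hb1 : β ^ (i - 1) ≤ 1 := Real.rpow_le_one_of_one_le_of_nonpos hβ (by linarith)
    have ha1 : 1 ≤ α ^ (i - 1) := Real.one_le_rpow_of_pos_of_le_one_of_nonpos hα hα1 (by linarith)
    have h1 : i * β ^ (i - 1) * (β' - β) ≤ i * (β' - β) := by
      have : 0 ≤ i * (β' - β) * (1 - β ^ (i - 1)) :=
        mul_nonneg (mul_nonneg hi0.le (by linarith)) (by linarith)
      nlinarith
    have h2 : i * (α - α') ≤ i * α ^ (i - 1) * (α - α') := by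
      have : 0 ≤ i * (α - α') * (α ^ (i - 1) - 1) :=
        mul_nonneg (mul_nonneg hi0.le (by linarith)) (by linarith)
      nlinarith
    have h3 : i * (α - α') ≤ i * (β' - β) := by nlinarith
    exact le_of_mul_le_mul_left h3 hi0
  · have t1 := T9b_tan hi0 hi1 hβ'0 hβ0
    have t2 := T9b_tan hi0 hi1 hα' hα
    have hA : 0 < α' ^ (i - 1) := Real.rpow_pos_of_pos hα' _
    have h3 : i * (β' ^ (i - 1) * (β' - β)) ≤ i * (α' ^ (i - 1) * (α - α')) := by nlinarith
    have h4 : β' ^ (i - 1) * (β' - β) ≤ α' ^ (i - 1) * (α - α') := le_of_mul_le_mul_left h3 hi0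
    have hr : α' / β' ≤ β' ^ (i - 1) / α' ^ (i - 1) := by
      have e1 : β' ^ (i - 1) / α' ^ (i - 1) = (α' / β') ^ (1 - i) := by
        rw [← Real.div_rpow hβ'0.le hα'.le, ← inv_div α' β', Real.inv_rpow (by positivity),
          ← Real.rpow_neg (by positivity)]
        congr 1; ring
      rw [e1]
      have hle : α' / β' ≤ 1 := by
        rw [div_le_one hβ'0]; linarith
      have := Real.rpow_le_rpow_of_exponent_ge (div_pos hα' hβ'0) hle (show 1 - i ≤ 1 by linarith)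
      rwa [Real.rpow_one] at this
    calc (α' / β') * (β' - β) ≤ β' ^ (i - 1) / α' ^ (i - 1) * (β' - β) :=
          mul_le_mul_of_nonneg_right hr (by linarith)
      _ = (β' ^ (i - 1) * (β' - β)) / α' ^ (i - 1) := by ring
      _ ≤ (α' ^ (i - 1) * (α - α')) / α' ^ (i - 1) := by gcongr
      _ = α - α' := by field_simp

end Pool.Agent.H892R2.EC
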