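import Mathlib
import Pool.Agent.H892R2.EC.T9a
import Pool.Agent.H892R2.EC.T9b

/-!
# MP_5e4080_gt: T9c, the induction step
-/

namespace Pool.Agent.H892R2.EC

open Set Filter Topology

/-- T9c. The induction step. -/
theorem T9c_step {i d S α β S' α' β' : ℝ} (hi0 : 0 < i) (hi1 : i < 1) (hd : 0 < d)
    (hd1 : d ≤ 1 / 64) (hS : 0 ≤ S) (hS1 : S ≤ 1) (hα : 0 < α) (hα1 : α ≤ 1) (hβ : 1 ≤ β)
    (h : α ^ i + β ^ i = 2) (hβ'0 : 0 < β') (hβ' : β' ^ 2 = α ^ 2 + 4 * d * S * α + 4 * d ^ 2)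
    (hS' : S' * β' = α * S + 2 * d) (hα' : 0 < α') (hα'1 : α' ≤ 1) (h' : α' ^ i + β' ^ i = 2)
    (hz : |2 * d * S - (β - α)| ≤ 8 * d ^ 2 * S ^ 2) :
    1 ≤ β' ∧ β' ≤ 1 + 2 * d ∧ S ≤ S' ∧ S' ≤ 1 ∧
      |2 * d * S' - (β' - α')| ≤ 8 * d ^ 2 * S' ^ 2 := by
  have hdS : 0 ≤ d * S := mul_nonneg hd.le hS
  have hdS1 : d * S ≤ 1 / 64 := by
    have := mul_le_mul_of_nonneg_left hS1 hd.le
    linarith
  have hq : d ^ 2 * S ^ 2 ≤ d * S / 64 := by
    have : d ^ 2 * S ^ 2 = (d * S) * (d * S) := by ring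
    rw [this]
    have h1 := mul_le_mul_of_nonneg_left hdS1 hdS
    linarith
  have hab := (T9a_basic hi0 hi1 hα hα1 hβ h).1
  have hz1 := (abs_le.1 hz).1
  have hz2 := (abs_le.1 hz).2
  -- (a)
  have ha : 1 - d * S - 4 * (d ^ 2 * S ^ 2) ≤ α := by linarith
  have ha2 : 1 ≤ α + 2 * d * S := by linarith
  have hβ'1 : 1 ≤ β' := by
    have h1 : (1 : ℝ) ≤ β' ^ 2 := by
      have : β' ^ 2 = (α + 2 * d * S) ^ 2 + 4 * d ^ 2 * (1 - S ^ 2) := by rw [hβ']; ring
      rw [this]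
      have h2 : 0 ≤ 1 - S ^ 2 := by
        have := pow_le_one₀ hS hS1 (n := 2)
        linarith
      have h3 : 0 ≤ 4 * d ^ 2 * (1 - S ^ 2) := by positivity
      have h4 : 1 ≤ (α + 2 * d * S) ^ 2 := one_le_pow₀ ha2
      linarith
    by_contra hcon
    push Not at hcon
    have : β' ^ 2 < 1 := by
      rw [sq]
      exact (mul_lt_mul'' hcon hcon hβ'0.le hβ'0.le).trans_eq (one_mul 1)
    linarith
  have hβ'2 : β' ≤ 1 + 2 * d := by
    have h1 : β' ^ 2 ≤ (1 + 2 * d) ^ 2 := by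
      rw [hβ']
      have h2 : S * α ≤ 1 := mul_le_one₀ hS1 hα.le hα1
      have h3 : d * (S * α) ≤ d * 1 := mul_le_mul_of_nonneg_left h2 hd.le
      have h4 : α ^ 2 ≤ 1 := pow_le_one₀ hα.le hα1
      linarith
    exact (sq_le_sq₀ hβ'0.le (by linarith)).1 h1
  -- (b)
  have hSS1 : 0 ≤ 1 - S ^ 2 := by
    have := pow_le_one₀ hS hS1 (n := 2)
    linarith
  have hS'1 : S' ≤ 1 := by
    have h1 : (α * S + 2 * d) ^ 2 ≤ β' ^ 2 := by
      have : β' ^ 2 - (α * S + 2 * d) ^ 2 = α ^ 2 * (1 - S ^ 2) := by rw [hβ']; ring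
      have h2 : 0 ≤ α ^ 2 * (1 - S ^ 2) := by positivity
      linarith
    have h3 : α * S + 2 * d ≤ β' := (sq_le_sq₀ (by positivity) hβ'0.le).1 h1
    rw [← hS'] at h3
    exact le_of_mul_le_mul_right (by linarith) hβ'0
  have hSS' : S ≤ S' := by
    have hαS : 0 ≤ α * S := mul_nonneg hα.le hS
    have h1 : (S * β') ^ 2 ≤ (α * S + 2 * d) ^ 2 := by
      have : (α * S + 2 * d) ^ 2 - (S * β') ^ 2 = 4 * d * (1 - S ^ 2) * (α * S + d) := by
        rw [mul_pow, hβ']; ring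
      have h2 : 0 ≤ 4 * d * (1 - S ^ 2) * (α * S + d) := by positivity
      linarith
    have h3 : S * β' ≤ α * S + 2 * d := (sq_le_sq₀ (by positivity) (by positivity)).1 h1
    rw [← hS'] at h3
    exact le_of_mul_le_mul_right h3 hβ'0
  have hS'0 : 0 ≤ S' := hS.trans hSS'
  -- (c)
  obtain ⟨ι, hι⟩ : ∃ ι, ι = (β' - d * S') - (α + d * S) := ⟨_, rfl⟩
  have hsum : 1 ≤ (β' - d * S') + (α + d * S) := by
    have h1 : d * S' ≤ d * 1 := mul_le_mul_of_nonneg_left hS'1 hd.le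
    linarith
  have hid : ι * ((β' - d * S') + (α + d * S)) = d ^ 2 * (S' ^ 2 - S ^ 2) := by
    rw [hι]
    have : (β' - d * S' - (α + d * S)) * (β' - d * S' + (α + d * S)) =
      β' ^ 2 - 2 * d * (S' * β') + d ^ 2 * S' ^ 2 - (α + d * S) ^ 2 := by ring
    rw [this, hβ', hS']
    ring
  have hD2 : 0 ≤ S' ^ 2 - S ^ 2 := by
    have := pow_le_pow_left₀ hS hSS' 2
    linarith
  have hR : 0 ≤ d ^ 2 * (S' ^ 2 - S ^ 2) := by positivity
  have hι0 : 0 ≤ ι := by
    by_contra hcon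
    push Not at hcon
    have : ι * ((β' - d * S') + (α + d * S)) < 0 := mul_neg_of_neg_of_pos hcon (by linarith)
    linarith
  have hι1 : ι ≤ d ^ 2 * (S' ^ 2 - S ^ 2) := by
    rw [← hid]
    exact le_mul_of_one_le_right hι0 hsum
  refine ⟨hβ'1, hβ'2, hSS', hS'1, ?_⟩
  -- (d)
  obtain ⟨z, hzd⟩ : ∃ z, z = 2 * d * S - (β - α) := ⟨_, rfl⟩
  rw [← hzd] at hz hz1 hz2
  have hD : 0 ≤ d * (S' - S) := mul_nonneg hd.le (by linarith)
  have hab' := (T9a_basic hi0 hi1 hα' hα'1 hβ'1 h').1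
  have key : |2 * d * S' - (β' - α')| ≤ |z| + 8 * (d ^ 2 * (S' ^ 2 - S ^ 2)) := by
    have hza := neg_abs_le z
    have hzb := le_abs_self z
    rcases le_total β β' with hc | hc
    · obtain ⟨h1, h2⟩ := T9b_lip hi0 hi1 hα' hα1 hα hα'1 hβ hc h h'
      obtain ⟨κ, hκ⟩ : ∃ κ, κ = α' / β' := ⟨_, rfl⟩
      rw [← hκ] at h2
      have hκ0 : 0 ≤ κ := by rw [hκ]; positivity
      have hκ1 : κ ≤ 1 := by rw [hκ, div_le_one hβ'0]; linarith
      have hκ2 : 1 - κ ≤ 5 * (d * S') := by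
        have e1 : 1 - κ ≤ β' - α' := by
          have : 1 - κ = (β' - α') / β' := by rw [hκ]; field_simp
          rw [this]
          exact div_le_self (by linarith) hβ'1
        have e2 : d ^ 2 * S' ^ 2 ≤ d * S' / 64 := by
          have : d ^ 2 * S' ^ 2 = (d * S') * (d * S') := by ring
          rw [this]
          have h5 : 0 ≤ d * S' := mul_nonneg hd.le hS'0
          have h6 : d * S' ≤ d * 1 := mul_le_mul_of_nonneg_left hS'1 hd.le
          have h7 : d * S' ≤ 1 / 64 := by linarith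
          have h8 : (d * S') * (d * S') ≤ (d * S') * (1 / 64) := mul_le_mul_of_nonneg_left h7 h5
          linarith
        have e3 : ι ≤ d ^ 2 * S' ^ 2 := by
          have : 0 ≤ d ^ 2 * S ^ 2 := by positivity
          linarith
        have e4 : d * S ≤ d * S' := mul_le_mul_of_nonneg_left hSS' hd.le
        have e5 : 0 ≤ d * S' := mul_nonneg hd.le hS'0
        linarith
      have hκD : (1 - κ) * (d * (S' - S)) ≤ 5 * (d ^ 2 * (S' ^ 2 - S ^ 2)) := by
        calc (1 - κ) * (d * (S' - S)) ≤ (5 * (d * S')) * (d * (S' - S)) := by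
              apply mul_le_mul_of_nonneg_right hκ2 hD
          _ ≤ 5 * (d ^ 2 * (S' ^ 2 - S ^ 2)) := by
              have : 0 ≤ 5 * d ^ 2 * S * (S' - S) := by
                have : 0 ≤ S' - S := by linarith
                positivity
              linarith
      have e6 : β' - β = z + d * (S' - S) + ι := by rw [hzd, hι]; ring
      have e7 : 2 * d * S' - (β' - α') = d * (S' - S) - ι - (α - α') := by rw [hι]; ring
      rw [e6] at h1 h2
      rw [e7, abs_le]
      constructor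
      · linarith
      · have hκz : -(κ * z) ≤ |z| := by
          have : |κ * z| ≤ |z| := by
            rw [abs_mul, abs_of_nonneg hκ0]
            exact mul_le_of_le_one_left (abs_nonneg z) hκ1
          linarith [neg_abs_le (κ * z)]
        have hκι : 0 ≤ κ * ι := mul_nonneg hκ0 hι0
        have e8 : κ * (z + d * (S' - S) + ι) = κ * z + κ * (d * (S' - S)) + κ * ι := by ring
        have e9 : (1 - κ) * (d * (S' - S)) = d * (S' - S) - κ * (d * (S' - S)) := by ring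
        rw [e8] at h2
        rw [e9] at hκD
        linarith
    · obtain ⟨h1, h2⟩ := T9b_lip hi0 hi1 hα hα'1 hα' hα1 hβ'1 hc h' h
      have h3 : 0 ≤ α / β * (β - β') := by
        have : 0 ≤ β - β' := by linarith
        have : 0 ≤ α / β := by positivity
        positivity
      have e6 : β' - β = z + d * (S' - S) + ι := by rw [hzd, hι]; ring
      have e7 : 2 * d * S' - (β' - α') = d * (S' - S) - ι - (α - α') := by rw [hι]; ring
      rw [e7, abs_le]
      constructor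
      · linarith [abs_nonneg z]
      · linarith
  calc |2 * d * S' - (β' - α')| ≤ |z| + 8 * (d ^ 2 * (S' ^ 2 - S ^ 2)) := key
    _ ≤ 8 * d ^ 2 * S ^ 2 + 8 * (d ^ 2 * (S' ^ 2 - S ^ 2)) := by linarith
    _ = 8 * d ^ 2 * S' ^ 2 := by ring

end Pool.Agent.H892R2.EC
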