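import Mathlib
import Pool.Agent.H892R2.EC.T9a
import Pool.Agent.H892R2.EC.T9c

/-!
# MP_5e4080_gt: T9d, the case `0 < i < 1`: one orbit (recursion written out)
-/

namespace Pool.Agent.H892R2.EC
open Set Filter Topology

/-- the invariant of an orbit -/
structure T9dInv (i d b c S r α β : ℝ) : Prop where
  r0 : 0 < r
  r2 : r ^ 2 = 1 + c ^ 2
  cS : c = S * r
  S0 : 0 ≤ S
  S1 : S ≤ 1
  α0 : 0 < α
  α1 : α ≤ 1
  β1 : 1 ≤ β
  β2 : β ≤ 1 + 2 * d
  eq : α ^ i + β ^ i = 2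
  v : β * (c - b) = 2 * d * r
  z : |2 * d * S - (β - α)| ≤ 8 * d ^ 2 * S ^ 2

theorem T9d_alpha {i d β : ℝ} (hi0 : 0 < i) (hi1 : i < 1) (hd : 0 < d) (hd1 : d ≤ 1 / 64)
    (h1 : 1 ≤ β) (h2 : β ≤ 1 + 2 * d) : ∃ α : ℝ, 0 < α ∧ α ≤ 1 ∧ α ^ i + β ^ i = 2 := by
  have hb1 : 1 ≤ β ^ i := Real.one_le_rpow h1 hi0.le
  have hb2 : β ^ i < 2 := by
    have : β ^ i ≤ β ^ (1 : ℝ) := Real.rpow_le_rpow_of_exponent_le h1 hi1.le
    rw [Real.rpow_one] at this
    linarith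
  refine ⟨(2 - β ^ i) ^ (1 / i), Real.rpow_pos_of_pos (by linarith) _,
    Real.rpow_le_one (by linarith) (by linarith) (by positivity), ?_⟩
  rw [← Real.rpow_mul (by linarith), one_div_mul_cancel hi0.ne', Real.rpow_one]
  ring

theorem T9dInv.vpos {i d b c S r α β : ℝ} (hd : 0 < d) (h : T9dInv i d b c S r α β) :
    c - b = 2 * d * r / β := by
  have := h.β1
  rw [eq_div_iff (by linarith), mul_comm]
  exact h.v

theorem T9dInv.vi {i d b c S r α β : ℝ} (hd : 0 < d) (h : T9dInv i d b c S r α β) :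
    (c - b) ^ (-i) = (2 * d) ^ (-i) * (1 + c ^ 2) ^ (-i / 2) * β ^ i := by
  have hβ : 0 < β := by linarith [h.β1]
  have hr := h.r0
  rw [h.vpos hd, Real.div_rpow (by positivity) hβ.le, Real.mul_rpow (by positivity) hr.le,
    ← h.r2, ← Real.rpow_natCast r 2, ← Real.rpow_mul hr.le, Real.rpow_neg hβ.le, div_eq_mul_inv,
    inv_inv]
  congr 3
  push_cast
  ring

theorem T9dInv.base {i d b c S r α β : ℝ} (hd : 0 < d) (h : T9dInv i d b c S r α β) :
    2 * (2 * d) ^ (-i) * (1 + c ^ 2) ^ (-i / 2) - (c - b) ^ (-i) = (2 * d * r / α) ^ (-i) := by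
  have hα := h.α0
  have hr := h.r0
  have hβi : β ^ i = 2 - α ^ i := by linarith [h.eq]
  rw [h.vi hd, hβi, Real.div_rpow (by positivity) hα.le, Real.mul_rpow (by positivity) hr.le,
    ← h.r2, ← Real.rpow_natCast r 2, ← Real.rpow_mul hr.le, Real.rpow_neg hα.le, div_inv_eq_mul]
  have : ((2 : ℕ) : ℝ) * (-i / 2) = -i := by push_cast; ring
  rw [this]
  ring

theorem T9dInv.F {i d b c S r α β : ℝ} (hi0 : 0 < i) (hd : 0 < d) (h : T9dInv i d b c S r α β) :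
    c + ((2 * (2 * d) ^ (-i)) * (1 + c ^ 2) ^ (-i / 2) - (c - b) ^ (-i)) ^ (-1 / i) =
      c + 2 * d * r / α := by
  have hα := h.α0
  have hr := h.r0
  rw [h.base hd, ← Real.rpow_mul (by positivity)]
  have : -i * (-1 / i) = 1 := by field_simp
  rw [this, Real.rpow_one]

theorem T9dInv.lt {i d b c S r α β : ℝ} (hd : 0 < d) (h : T9dInv i d b c S r α β) : b < c := by
  have hβ : 0 < β := by linarith [h.β1]
  have hr := h.r0
  have := h.vpos hd
  have h2 : 0 < 2 * d * r / β := by positivity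
  linarith

theorem T9dInv.hbase {i d b c S r α β : ℝ} (hd : 0 < d) (h : T9dInv i d b c S r α β) :
    (c - b) ^ (-i) < (2 * (2 * d) ^ (-i)) * (1 + c ^ 2) ^ (-i / 2) := by
  have hα := h.α0
  have hr := h.r0
  have h1 := h.base hd
  have h2 : 0 < (2 * d * r / α) ^ (-i) := by positivity
  linarith

theorem T9dInv.mono {i d b c S r α β : ℝ} (hi0 : 0 < i) (hi1 : i < 1) (hd : 0 < d)
    (hd1 : 64 * d ≤ 1 - i) (h : T9dInv i d b c S r α β) :
    (1 + b * c) * (2 * d * r / α) ^ (1 + i)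
        ≤ (1 + c * (c + 2 * d * r / α)) * (c - b) ^ (1 + i) := by
  have hα := h.α0
  have hr := h.r0
  have hβ : 0 < β := by linarith [h.β1]
  have hS0 := h.S0
  have hS1 := h.S1
  obtain ⟨-, -, h3⟩ := T9a_basic hi0 hi1 h.α0 h.α1 h.β1 h.eq
  have hz := h.z
  rw [abs_le] at hz
  have hba : β - α ≤ 2 * d * S + 8 * d ^ 2 * S ^ 2 := by linarith [hz.1]
  have hba0 : 0 ≤ β - α := by linarith [h.α1, h.β1]
  have hS2 : S ^ 2 ≤ S := by nlinarith
  have hba2 : β - α ≤ 2 * d * S * (1 + 4 * d) := by nlinarith [mul_pos hd hd]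
  have hdS : d * S ≤ d := by nlinarith
  have hba3 : β - α ≤ 4 * d := by nlinarith [mul_pos hd hd]
  have h4 := h3 (by linarith)
  have h5 : β ^ (1 + i) - α ^ (1 + i) ≤ 4 * d * S := by
    refine h4.trans ?_
    calc (β - α) * (1 + i + i * ((β - α) / 2)) ≤ (2 * d * S * (1 + 4 * d)) * (1 + i + 2 * d) := by
          refine mul_le_mul hba2 ?_ (by positivity) (by positivity)
          nlinarith
      _ = 2 * d * S * ((1 + 4 * d) * (1 + i + 2 * d)) := by ring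
      _ ≤ 2 * d * S * 2 := by
          refine mul_le_mul_of_nonneg_left ?_ (by positivity)
          nlinarith [mul_pos hd hd]
      _ = 4 * d * S := by ring
  have hα1i : α ^ (1 + i) = α * α ^ i := by rw [Real.rpow_add hα, Real.rpow_one]
  have hβ1i : β ^ (1 + i) = β * β ^ i := by rw [Real.rpow_add hβ, Real.rpow_one]
  have hαi : 0 < α ^ i := by positivity
  have hβi : 0 < β ^ i := by positivity
  have e1 : (1 + b * c) = r ^ 2 * (1 - 2 * d * S / β) := by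
    have hv := h.vpos hd
    have : b = c - 2 * d * r / β := by linarith
    rw [this, mul_sub, mul_one, h.r2]
    have hc := h.cS
    have : r ^ 2 * (2 * d * S / β) = 2 * d * r / β * c := by rw [hc]; ring
    rw [← h.r2, this, h.r2]
    ring
  have e2 : (1 + c * (c + 2 * d * r / α)) = r ^ 2 * (1 + 2 * d * S / α) := by
    have hc := h.cS
    have : r ^ 2 * (2 * d * S / α) = 2 * d * r / α * c := by rw [hc]; ring
    rw [mul_add (r ^ 2), mul_one, this, h.r2]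
    ring
  rw [e1, e2, h.vpos hd, Real.div_rpow (by positivity) hα.le, Real.div_rpow (by positivity) hβ.le]
  have key : (1 - 2 * d * S / β) * β ^ (1 + i) ≤ (1 + 2 * d * S / α) * α ^ (1 + i) := by
    have l1 : (1 - 2 * d * S / β) * β ^ (1 + i) = β ^ (1 + i) - 2 * d * S * β ^ i := by
      rw [hβ1i]; field_simp
    have l2 : (1 + 2 * d * S / α) * α ^ (1 + i) = α ^ (1 + i) + 2 * d * S * α ^ i := by
      rw [hα1i]; field_simp
    rw [l1, l2]
    have := h.eq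
    have h6 : 2 * d * S * (α ^ i + β ^ i) = 4 * d * S := by rw [this]; ring
    nlinarith
  have hQ : 0 < (2 * d * r) ^ (1 + i) := by positivity
  have ha1 : 0 < α ^ (1 + i) := by positivity
  have hb1 : 0 < β ^ (1 + i) := by positivity
  rw [← mul_div_assoc, ← mul_div_assoc, div_le_div_iff₀ ha1 hb1]
  have := mul_le_mul_of_nonneg_left key (show 0 ≤ r ^ 2 * (2 * d * r) ^ (1 + i) by positivity)
  linarith

theorem T9dInv.step {i d b c S r α β : ℝ} (hi0 : 0 < i) (hi1 : i < 1) (hd : 0 < d)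
    (hd1 : d ≤ 1 / 64) (h : T9dInv i d b c S r α β) :
    ∃ S' r' α' β' : ℝ, T9dInv i d c (c + 2 * d * r / α) S' r' α' β' ∧ 2 * d ≤ S' * (1 + 2 * d) := by
  have hα := h.α0
  have hr := h.r0
  have hβ : 0 < β := by linarith [h.β1]
  have hS0 := h.S0
  have hS1 := h.S1
  obtain ⟨h1, -, -⟩ := T9a_basic hi0 hi1 h.α0 h.α1 h.β1 h.eq
  have hz := h.z
  rw [abs_le] at hz
  set w := 2 * d * r / α with hw
  have hw0 : 0 < w := by positivity
  have hwα : w * α = 2 * d * r := by rw [hw]; field_simp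
  set r' := Real.sqrt (1 + (c + w) ^ 2) with hr'
  have hr'0 : 0 < r' := Real.sqrt_pos.2 (by positivity)
  have hr'2 : r' ^ 2 = 1 + (c + w) ^ 2 := Real.sq_sqrt (by positivity)
  set β' := α * r' / r with hβ'
  have hβ'0 : 0 < β' := by positivity
  have hβ'r : β' * r = α * r' := by rw [hβ']; field_simp
  have hc := h.cS
  have hβ'2 : β' ^ 2 = α ^ 2 + 4 * d * S * α + 4 * d ^ 2 := by
    have h2 : β' ^ 2 * r ^ 2 = (α ^ 2 + 4 * d * S * α + 4 * d ^ 2) * r ^ 2 := by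
      calc β' ^ 2 * r ^ 2 = (β' * r) ^ 2 := by ring
        _ = α ^ 2 * r' ^ 2 := by rw [hβ'r]; ring
        _ = α ^ 2 * (1 + c ^ 2) + 2 * α * c * (w * α) + (w * α) ^ 2 := by rw [hr'2]; ring
        _ = _ := by rw [hwα, ← h.r2, hc]; ring
    exact mul_right_cancel₀ (by positivity) h2
  set S' := (c + w) / r' with hS'
  have hS'r : c + w = S' * r' := by rw [hS']; field_simp
  have hS'β : S' * β' = α * S + 2 * d := by
    have h2 : S' * β' * r = (α * S + 2 * d) * r := by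
      calc S' * β' * r = S' * (β' * r) := by ring
        _ = α * (S' * r') := by rw [hβ'r]; ring
        _ = α * c + w * α := by rw [← hS'r]; ring
        _ = _ := by rw [hwα, hc]; ring
    exact mul_right_cancel₀ hr.ne' h2
  have hS2 : S ^ 2 ≤ S := by nlinarith
  have hge : 1 ≤ α + 2 * d * S := by
    have h3 : d ^ 2 * S ^ 2 ≤ d ^ 2 * S := mul_le_mul_of_nonneg_left hS2 (by positivity)
    have h4 : d * (d * S) ≤ 1 / 64 * (d * S) :=
      mul_le_mul_of_nonneg_right hd1 (mul_nonneg hd.le hS0)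
    have h5 : 0 ≤ d * S := mul_nonneg hd.le hS0
    have h6 : 4 * d ^ 2 * S ^ 2 ≤ d * S := by linarith
    linarith [hz.1, hz.2]
  have hβ'1 : 1 ≤ β' := by
    have h3 : 1 ≤ β' ^ 2 := by
      rw [hβ'2]
      nlinarith [mul_nonneg hd.le hd.le]
    nlinarith
  have hβ'2' : β' ≤ 1 + 2 * d := by
    have h3 : β' ^ 2 ≤ (1 + 2 * d) ^ 2 := by
      rw [hβ'2]
      have hα1 := h.α1
      have : S * α ≤ 1 := by nlinarith
      nlinarith [mul_nonneg hd.le (sub_nonneg.2 this)]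
    exact (pow_le_pow_iff_left₀ hβ'0.le (by positivity) two_ne_zero).1 h3
  obtain ⟨α', ha0, ha1, ha2⟩ := T9d_alpha hi0 hi1 hd hd1 hβ'1 hβ'2'
  obtain ⟨-, -, h5, h6, h7⟩ := T9c_step hi0 hi1 hd hd1 hS0 hS1 h.α0 h.α1 h.β1 h.eq hβ'0 hβ'2 hS'β
    ha0 ha1 ha2 h.z
  refine ⟨S', r', α', β', ⟨hr'0, hr'2, hS'r, hS0.trans h5, h6, ha0, ha1, hβ'1, hβ'2', ha2, ?_, h7⟩,
    ?_⟩
  · have : β' * w * r = 2 * d * r' * r := by
      calc β' * w * r = (β' * r) * w := by ring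
        _ = r' * (w * α) := by rw [hβ'r]; ring
        _ = _ := by rw [hwα]; ring
    have h8 := mul_right_cancel₀ hr.ne' this
    rw [add_sub_cancel_left]
    exact h8
  · have h8 : S' * β' ≤ S' * (1 + 2 * d) := mul_le_mul_of_nonneg_left hβ'2' (hS0.trans h5)
    have h9 := mul_nonneg hα.le hS0
    linarith

theorem T9dInv.ratio {i d b c S r α β : ℝ} (hi0 : 0 < i) (hi1 : i < 1) (hd : 0 < d)
    (hd1 : d ≤ 1 / 64) (h : T9dInv i d b c S r α β) (h2 : 2 * d ≤ S * (1 + 2 * d)) :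
    0 < c ∧ (1 + 2 * d) * c ≤ c + 2 * d * r / α ∧ c + 2 * d * r / α ≤ 5 * c := by
  have hα := h.α0
  have hr := h.r0
  have hS1 := h.S1
  have hSpos : 0 < S := by
    by_contra hneg
    rw [not_lt] at hneg
    nlinarith
  have hc := h.cS
  have hc0 : 0 < c := by rw [hc]; positivity
  obtain ⟨h1, -, -⟩ := T9a_basic hi0 hi1 h.α0 h.α1 h.β1 h.eq
  have hα2 : 1 - 2 * d ≤ α := by linarith [h.β2]
  refine ⟨hc0, ?_, ?_⟩
  · have : 2 * d * c ≤ 2 * d * r / α := by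
      rw [le_div_iff₀ hα, hc]
      have h3 : S * α ≤ 1 := by nlinarith [h.α1]
      nlinarith [mul_nonneg (mul_nonneg hd.le hr.le) (sub_nonneg.2 h3)]
    linarith
  · have : 2 * d * r / α ≤ 4 * c := by
      rw [div_le_iff₀ hα, hc]
      have h3 : 2 * d ≤ 4 * S * α := by nlinarith
      nlinarith [mul_nonneg hr.le (sub_nonneg.2 h3)]
    linarith

theorem T9d_quad {t β : ℝ} (ht : 0 ≤ t) (hβ : 1 ≤ β) (h : β ^ 2 = 1 + 2 * t * β) :
    β - 1 - t ≤ t ^ 2 / 2 := by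
  by_contra hgt
  rw [not_le] at hgt
  have h3 : (β - t) ^ 2 = 1 + t ^ 2 := by nlinarith
  have h4 : 1 + t ^ 2 / 2 < β - t := by linarith
  have h5 : (1 + t ^ 2 / 2) ^ 2 < (β - t) ^ 2 := by
    apply pow_lt_pow_left₀ h4 (by positivity) (by norm_num)
  nlinarith [sq_nonneg (t ^ 2)]

theorem T9d_start {i d y : ℝ} (hi0 : 0 < i) (hi1 : i < 1) (hd : 0 < d) (hd1 : d ≤ 1 / 64)
    (hy : Real.sinh y = d) (s : ℝ) (hs : s ∈ Icc (0:ℝ) 1) :
    ∃ S r α β : ℝ, T9dInv i d (Real.sinh (2 * y * (s - 1)) / Real.cosh y)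
      (Real.sinh (2 * y * s) / Real.cosh y) S r α β := by
  have hy0 : 0 < y := by
    rw [← Real.sinh_pos_iff, hy]; exact hd
  have hch : 0 < Real.cosh y := Real.cosh_pos y
  have hch2 : Real.cosh y ^ 2 = 1 + d ^ 2 := by rw [Real.cosh_sq, hy]; ring
  set a := 2 * y * s with ha
  set sa := Real.sinh a with hsa
  set sb := Real.sinh (2 * y * (s - 1)) with hsb
  have hsa0 : 0 ≤ sa := Real.sinh_nonneg_iff.2 (by have := hs.1; positivity)
  have hlt : sb < sa := Real.sinh_lt_sinh.2 (by rw [ha]; nlinarith)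
  have hsb' : sb = sa * (1 + 2 * d ^ 2) - Real.cosh a * (2 * d * Real.cosh y) := by
    have : 2 * y * (s - 1) = a - 2 * y := by rw [ha]; ring
    rw [hsb, this, Real.sinh_sub, Real.cosh_two_mul, Real.sinh_two_mul, hch2, hy]
    ring
  have hca : Real.cosh a ^ 2 = 1 + sa ^ 2 := by rw [Real.cosh_sq]; ring
  have hid : (sa - sb) ^ 2 = 4 * d ^ 2 * (Real.cosh y ^ 2 + sa * sb) := by
    have h1 : (sb - sa * (1 + 2 * d ^ 2)) ^ 2 = (1 + sa ^ 2) * (4 * d ^ 2 * Real.cosh y ^ 2) := by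
      rw [hsb', ← hca]; ring
    rw [hch2] at h1 ⊢
    nlinarith [h1]
  set c := sa / Real.cosh y with hc
  set b := sb / Real.cosh y with hb
  have hc0 : 0 ≤ c := by positivity
  have hcb : 0 < c - b := by
    rw [hc, hb, ← sub_div]; exact div_pos (by linarith) hch
  have hid2 : (c - b) ^ 2 = 4 * d ^ 2 * (1 + b * c) := by
    rw [hc, hb]
    field_simp
    linarith [hid]
  set r := Real.sqrt (1 + c ^ 2) with hr
  have hr0 : 0 < r := Real.sqrt_pos.2 (by positivity)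
  have hr2 : r ^ 2 = 1 + c ^ 2 := Real.sq_sqrt (by positivity)
  set S := c / r with hS
  have hcS : c = S * r := by rw [hS]; field_simp
  have hS0 : 0 ≤ S := by positivity
  have hS1 : S ≤ 1 := by
    rw [hS, div_le_one hr0]
    nlinarith
  set β := 2 * d * r / (c - b) with hβ
  have hβ0 : 0 < β := by positivity
  have hβv : β * (c - b) = 2 * d * r := by rw [hβ]; field_simp
  have hquad : β ^ 2 = 1 + 2 * d * S * β := by
    have : β ^ 2 * (c - b) ^ 2 = (1 + 2 * d * S * β) * (c - b) ^ 2 := by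
      calc β ^ 2 * (c - b) ^ 2 = (β * (c - b)) ^ 2 := by ring
        _ = 4 * d ^ 2 * r ^ 2 := by rw [hβv]; ring
        _ = (c - b) ^ 2 + 4 * d ^ 2 * c * (c - b) := by rw [hid2, hr2]; ring
        _ = (c - b) ^ 2 + 2 * d * S * (2 * d * r) * (c - b) := by
            have : 4 * d ^ 2 * c * (c - b) = 4 * d ^ 2 * (S * r) * (c - b) := by rw [← hcS]
            rw [this]; ring
        _ = _ := by rw [← hβv]; ring
    exact mul_right_cancel₀ (by positivity) this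
  have hβ1 : 1 ≤ β := by nlinarith [mul_nonneg (mul_nonneg hd.le hS0) hβ0.le]
  have hβ2 : β ≤ 1 + 2 * d := by
    by_contra hgt
    rw [not_le] at hgt
    nlinarith [mul_nonneg (mul_nonneg hd.le hβ0.le) (sub_nonneg.2 hS1)]
  obtain ⟨α, ha0, ha1, ha2⟩ := T9d_alpha hi0 hi1 hd hd1 hβ1 hβ2
  obtain ⟨h1, h2, -⟩ := T9a_basic hi0 hi1 ha0 ha1 hβ1 ha2
  refine ⟨S, r, α, β, hr0, hr2, hcS, hS0, hS1, ha0, ha1, hβ1, hβ2, ha2, hβv, ?_⟩
  have hdS : 0 ≤ d * S := by positivity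
  -- `β = t + √(1+t²)`, `t = dS`
  have hkey : β - 1 - d * S ≤ (d * S) ^ 2 / 2 := T9d_quad hdS hβ1 (by rw [hquad]; ring)
  have hα' : α ≤ β - 2 * (d * S) := by
    -- `1 = β (β - 2 d S)`
    have h4 : β * (β - 2 * (d * S)) = 1 := by linarith
    have h5 : α * β ≤ (β - 2 * (d * S)) * β := by linarith
    exact le_of_mul_le_mul_right h5 hβ0
  rw [abs_le]
  constructor
  · have : 0 ≤ (d * S) ^ 2 := sq_nonneg _
    have e : 8 * d ^ 2 * S ^ 2 = 8 * (d * S) ^ 2 := by ring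
    rw [e]
    linarith
  · have : 0 ≤ (d * S) ^ 2 := sq_nonneg _
    have e : 8 * d ^ 2 * S ^ 2 = 8 * (d * S) ^ 2 := by ring
    rw [e]
    linarith

theorem T9d_core {i d y : ℝ} (hi0 : 0 < i) (hi1 : i < 1) (hd : 0 < d) (hd1 : 64 * d ≤ 1 - i)
    (hy : Real.sinh y = d) (x : ℕ → ℝ) (s : ℝ) (hs : s ∈ Icc (0:ℝ) 1)
    (h0 : x 0 = Real.sinh (2 * y * (s - 1)) / Real.cosh y)
    (h1 : x 1 = Real.sinh (2 * y * s) / Real.cosh y)
    (hx : ∀ n, x (n + 2) = x (n + 1) + ((2 * (2 * d) ^ (-i)) * (1 + x (n + 1) ^ 2) ^ (-i / 2) -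
      (x (n + 1) - x n) ^ (-i)) ^ (-1 / i)) :
    (∀ n, x n < x (n + 1)) ∧
    (∀ n, (x (n + 1) - x n) ^ (-i)
        < (2 * (2 * d) ^ (-i)) * (1 + (x (n + 1)) ^ 2) ^ (-i / 2)) ∧
    (∀ n, (1 + x n * x (n + 1)) * (x (n + 2) - x (n + 1)) ^ (1 + i)
        ≤ (1 + x (n + 1) * x (n + 2)) * (x (n + 1) - x n) ^ (1 + i)) ∧
    (∀ n, 2 ≤ n → 0 < x n ∧ (1 + 2 * d) * x n ≤ x (n + 1) ∧ x (n + 1) ≤ 5 * x n) := by
  have hd2 : d ≤ 1 / 64 := by linarith
  have hinv : ∀ n, ∃ S r α β : ℝ, T9dInv i d (x n) (x (n + 1)) S r α β ∧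
      (1 ≤ n → 2 * d ≤ S * (1 + 2 * d)) := by
    intro n
    induction n with
    | zero =>
      obtain ⟨S, r, α, β, h⟩ := T9d_start hi0 hi1 hd hd2 hy s hs
      refine ⟨S, r, α, β, ?_, fun h => absurd h (by norm_num)⟩
      rw [h0, zero_add, h1]
      exact h
    | succ n ih =>
      obtain ⟨S, r, α, β, h, -⟩ := ih
      obtain ⟨S', r', α', β', h', h2⟩ := h.step hi0 hi1 hd hd2
      refine ⟨S', r', α', β', ?_, fun _ => h2⟩
      have := hx n
      rw [h.F hi0 hd] at this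
      rw [show n + 1 + 1 = n + 2 from rfl, this]
      exact h'
  refine ⟨fun n => ?_, fun n => ?_, fun n => ?_, fun n hn => ?_⟩
  · obtain ⟨S, r, α, β, h, -⟩ := hinv n
    exact h.lt hd
  · obtain ⟨S, r, α, β, h, -⟩ := hinv n
    exact h.hbase hd
  · obtain ⟨S, r, α, β, h, -⟩ := hinv n
    have h2 := h.mono hi0 hi1 hd hd1
    rw [hx n, h.F hi0 hd, add_sub_cancel_left]
    exact h2
  · obtain ⟨m, rfl⟩ : ∃ m, n = m + 1 := ⟨n - 1, by omega⟩
    obtain ⟨S, r, α, β, h, h2⟩ := hinv m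
    have h3 := h.ratio hi0 hi1 hd hd2 (h2 (by omega))
    rw [show m + 1 + 1 = m + 2 from rfl, hx m, h.F hi0 hd]
    exact h3

end Pool.Agent.H892R2.EC
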