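import Pool.Agent.H892R2.EC.Defs
import Pool.Agent.H892R2.EC.T9dCore

/-!
# MP_5e4080_gt: T9d, the case `0 < i < 1`: one orbit
-/

namespace Pool.Agent.H892R2.EC

open Set Filter Topology

/-- T9d. The case `0 < i < 1`: one orbit. Here `q = 2 d`, `φ t = sinh (2 y t) / cosh y` with
`sinh y = d`. -/
theorem T9d_pos {i d y : ℝ} (hi0 : 0 < i) (hi1 : i < 1) (hd : 0 < d) (hd1 : 64 * d ≤ 1 - i)
    (hy : Real.sinh y = d) (x : ℕ → ℝ) (s : ℝ) (hs : s ∈ Icc (0:ℝ) 1)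
    (h0 : x 0 = Real.sinh (2 * y * (s - 1)) / Real.cosh y)
    (h1 : x 1 = Real.sinh (2 * y * s) / Real.cosh y)
    (hx : ∀ n, x (n + 2) = F i (2 * (2 * d) ^ (-i)) (x (n + 1)) (x n)) :
    (∀ n, x n < x (n + 1)) ∧
    (∀ n, (x (n + 1) - x n) ^ (-i)
        < (2 * (2 * d) ^ (-i)) * (1 + (x (n + 1)) ^ 2) ^ (-i / 2)) ∧
    (∀ n, (1 + x n * x (n + 1)) * (x (n + 2) - x (n + 1)) ^ (1 + i)
        ≤ (1 + x (n + 1) * x (n + 2)) * (x (n + 1) - x n) ^ (1 + i)) ∧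
    (∀ n, 2 ≤ n → 0 < x n ∧ (1 + 2 * d) * x n ≤ x (n + 1) ∧ x (n + 1) ≤ 5 * x n) :=
  T9d_core hi0 hi1 hd hd1 hy x s hs h0 h1 fun n => by rw [hx n, F]

end Pool.Agent.H892R2.EC
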