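import Pool.Agent.H892R2.EC.T3
import Pool.Agent.H892R2.EC.T5
import Pool.Agent.H892R2.EC.T6
import Pool.Agent.H892R2.EC.T7
import Pool.Agent.H892R2.EC.T8
import Pool.Agent.H892R2.EC.T9d

/-!
# MP_5e4080_gt: main theorem
-/

namespace Pool.Agent.H892R2.EC

open Set Filter Topology

/-- T10. Main theorem. -/
theorem main {i : ℝ} (hi1 : i < 1) (hi0 : i ≠ 0) {n : ℕ} (hn : 2 ≤ n) :
    ∃ L : Set (E n), IsBody L ∧
      ∃ p q : E n, p ≠ q ∧ IsEquichordal i L p ∧ IsEquichordal i L q := by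
  have key : ∃ A : ℝ, ∃ X : ℕ → ℝ → ℝ, OrbitData i A X := by
    rcases lt_or_gt_of_ne hi0 with hneg | hpos
    · -- negative case
      refine ⟨2 * 3 ^ (-i), X i (2 * 3 ^ (-i)) (fun t => 3 * t), ?_⟩
      have H : ∀ s ∈ Icc (0:ℝ) 1, _ := fun s hs =>
        T8_neg hneg (fun n => X i (2 * 3 ^ (-i)) (fun t => 3 * t) n s) s hs
          (by simp [X]) (by simp [X]) (fun n => by simp [X])
      refine T7_orbit (φ' := fun _ => 3) hi0 hi1 (by norm_num) ?_ (fun _ => by norm_num) ?_ ?_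
        (fun n s hs => (H s hs).1 n) (fun n s hs => (H s hs).2.1 n)
        (fun n s hs => (H s hs).2.2.1 n)
        ⟨4, 1 + 6 * (2:ℝ) ^ (-1 / i), by norm_num, fun n hn s hs => (H s hs).2.2.2 n hn⟩
      · intro t
        simpa using (hasDerivAt_id t).const_mul (3:ℝ)
      · intro t; ring
      · norm_num
    · -- positive case
      obtain ⟨d, hd, hd1⟩ : ∃ d : ℝ, 0 < d ∧ 64 * d ≤ 1 - i :=
        ⟨(1 - i) / 64, by linarith, by linarith⟩
      have hy : Real.sinh (Real.arsinh d) = d := Real.sinh_arsinh d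
      have hy0 : 0 < Real.arsinh d := Real.arsinh_pos_iff.2 hd
      have hch : 0 < Real.cosh (Real.arsinh d) := Real.cosh_pos _
      refine ⟨2 * (2 * d) ^ (-i), X i (2 * (2 * d) ^ (-i))
        (fun t => Real.sinh (2 * Real.arsinh d * t) / Real.cosh (Real.arsinh d)), ?_⟩
      have H : ∀ s ∈ Icc (0:ℝ) 1, _ := fun s hs =>
        T9d_pos hpos hi1 hd hd1 hy (fun n => X i (2 * (2 * d) ^ (-i))
          (fun t => Real.sinh (2 * Real.arsinh d * t) / Real.cosh (Real.arsinh d)) n s) s hs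
          (by simp [X]) (by simp [X]) (fun n => by simp [X])
      refine T7_orbit (q := 2 * d) (φ' := fun t => Real.cosh (2 * Real.arsinh d * t)
          * (2 * Real.arsinh d) / Real.cosh (Real.arsinh d)) hi0 hi1 (by linarith) ?_ ?_ ?_ ?_
        (fun n s hs => (H s hs).1 n) (fun n s hs => (H s hs).2.1 n)
        (fun n s hs => (H s hs).2.2.1 n)
        ⟨1 + 2 * d, 5, by linarith, fun n hn s hs => (H s hs).2.2.2 n hn⟩
      · intro t
        have h1 : HasDerivAt (fun t : ℝ => 2 * Real.arsinh d * t) (2 * Real.arsinh d) t := by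
          simpa using (hasDerivAt_id t).const_mul (2 * Real.arsinh d)
        exact (h1.sinh).div_const _
      · intro t
        have := Real.cosh_pos (2 * Real.arsinh d * t)
        positivity
      · intro t
        rw [mul_neg, Real.sinh_neg, neg_div]
      · rw [mul_one, Real.sinh_two_mul, hy]
        field_simp
  obtain ⟨A, X, hX⟩ := key
  obtain ⟨Φ, hm, hs, ho, he, a, b, T, ha, hb⟩ := T5_Phi hX
  obtain ⟨τ, hτ, Λ, hΛ, hlim⟩ := T6_trans hi0 hi1 hm hs ho he ha hb
  exact T3_body hi0 hτ hΛ hlim hn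

end Pool.Agent.H892R2.EC
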