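import Pool.Agent.H892R2.EC.Defs

/-!
# MP_5e4080_gt: stubs (exact statements of the tasks T1..T9)
-/

namespace Pool.Agent.H892R2.EC

open Set Filter Topology

/-- T1. Gauges give star bodies. -/
theorem T1_gauge {n : ℕ} (hn : 2 ≤ n) (N : E n → ℝ) (hc : Continuous N)
    (hh : ∀ t : ℝ, 0 ≤ t → ∀ x, N (t • x) = t * N x) (hp : ∀ x, x ≠ 0 → 0 < N x) :
    IsStarBody {x : E n | N x ≤ 1} ∧
    (∀ u : E n, u ≠ 0 → radial {x : E n | N x ≤ 1} u = (N u)⁻¹) ∧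
    IsBody {x : E n | N x ≤ 1} ∧ (0 : E n) ∈ interior {x : E n | N x ≤ 1} := by
  sorry

/-- T2a. Continuity of the perspective. -/
theorem T2a_cont {i A Λ : ℝ} {τ : ℝ → ℝ} (hT : Trans i A τ) (hΛ : 1 < Λ)
    (hlim : Tendsto (fun c => τ c / c) atTop (𝓝 Λ)) :
    ContinuousOn (fun z : ℝ × ℝ => P Λ τ z.1 z.2) {z | 0 ≤ z.2} := by
  sorry

/-- T2b. The other properties of the perspective. -/
theorem T2b_props {i A Λ : ℝ} {τ : ℝ → ℝ} (hT : Trans i A τ) (hΛ : 1 < Λ)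
    (hlim : Tendsto (fun c => τ c / c) atTop (𝓝 Λ)) :
    (∀ x r t : ℝ, 0 ≤ r → 0 ≤ t → P Λ τ (t * x) (t * r) = t * P Λ τ x r) ∧
    (∀ x r : ℝ, 0 ≤ r → (x, r) ≠ (0, 0) → x < P Λ τ x r) ∧
    (∀ a b r : ℝ, 0 ≤ r → (P Λ τ a r ≤ b ↔ P Λ τ (-b) r ≤ -a)) ∧
    (∀ x r : ℝ, 0 ≤ r → x ^ 2 + r ^ 2 = 1 →
      (P Λ τ x r - x) ^ (-i) + (P Λ τ (-x) r + x) ^ (-i) = A) ∧ 0 < A := by
  sorry

/-- T3. The body. -/
theorem T3_body {i A Λ : ℝ} {τ : ℝ → ℝ} (hi : i ≠ 0) (hT : Trans i A τ) (hΛ : 1 < Λ)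
    (hlim : Tendsto (fun c => τ c / c) atTop (𝓝 Λ)) {n : ℕ} (hn : 2 ≤ n) :
    ∃ L : Set (E n), IsBody L ∧
      ∃ p q : E n, p ≠ q ∧ IsEquichordal i L p ∧ IsEquichordal i L q := by
  sorry

/-- T4. Convergence of the ratios. -/
theorem T4_ratio {i A : ℝ} (hi0 : i ≠ 0) (hi1 : i < 1) {ρ κ : ℝ → ℝ} {a b T : ℝ} (ha : 1 < a)
    (hb : ∀ t, T ≤ t → a ≤ ρ t ∧ ρ t ≤ b) (hκ : Tendsto κ atTop (𝓝 A))
    (heq : ∀ t, T ≤ t → (ρ (t + 1) - 1) ^ (-i) + (1 - (ρ t)⁻¹) ^ (-i) = κ t) :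
    ∃ Λ : ℝ, 1 < Λ ∧ Tendsto ρ atTop (𝓝 Λ) := by
  sorry

/-- T5. The orbits glue to one function `Φ`. -/
theorem T5_Phi {i A : ℝ} {X : ℕ → ℝ → ℝ} (h : OrbitData i A X) :
    ∃ Φ : ℝ → ℝ, StrictMono Φ ∧ Function.Surjective Φ ∧ (∀ t, Φ (-t) = - Φ t) ∧
      (∀ t, (Φ (t + 1) - Φ t) ^ (-i) + (Φ t - Φ (t - 1)) ^ (-i)
        = A * (1 + (Φ t) ^ 2) ^ (-i / 2)) ∧
      ∃ a b T : ℝ, 1 < a ∧ ∀ t, T ≤ t → 0 < Φ t ∧ a * Φ t ≤ Φ (t + 1) ∧ Φ (t + 1) ≤ b * Φ t := by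
  sorry

/-- T6. From `Φ` to `τ`. -/
theorem T6_trans {i A : ℝ} (hi0 : i ≠ 0) (hi1 : i < 1) {Φ : ℝ → ℝ} (hm : StrictMono Φ)
    (hs : Function.Surjective Φ) (ho : ∀ t, Φ (-t) = - Φ t)
    (he : ∀ t, (Φ (t + 1) - Φ t) ^ (-i) + (Φ t - Φ (t - 1)) ^ (-i)
        = A * (1 + (Φ t) ^ 2) ^ (-i / 2))
    {a b T : ℝ} (ha : 1 < a)
    (hb : ∀ t, T ≤ t → 0 < Φ t ∧ a * Φ t ≤ Φ (t + 1) ∧ Φ (t + 1) ≤ b * Φ t) :
    ∃ τ : ℝ → ℝ, Trans i A τ ∧ ∃ Λ : ℝ, 1 < Λ ∧ Tendsto (fun c => τ c / c) atTop (𝓝 Λ) := by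
  sorry

/-- T7. Orbits of the recursion satisfying the monotonicity criterion form `OrbitData`. -/
theorem T7_orbit {i q : ℝ} (hi0 : i ≠ 0) (hi1 : i < 1) (hq : 0 < q) {φ φ' : ℝ → ℝ}
    (hφ : ∀ t, HasDerivAt φ (φ' t) t) (hφ' : ∀ t, 0 < φ' t) (hodd : ∀ t, φ (-t) = - φ t)
    (h1 : φ 1 = q)
    (hlt : ∀ n, ∀ s ∈ Icc (0:ℝ) 1, X i (2 * q ^ (-i)) φ n s < X i (2 * q ^ (-i)) φ (n + 1) s)
    (hbase : ∀ n, ∀ s ∈ Icc (0:ℝ) 1,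
      (X i (2 * q ^ (-i)) φ (n + 1) s - X i (2 * q ^ (-i)) φ n s) ^ (-i)
        < (2 * q ^ (-i)) * (1 + (X i (2 * q ^ (-i)) φ (n + 1) s) ^ 2) ^ (-i / 2))
    (hG : ∀ n, ∀ s ∈ Icc (0:ℝ) 1,
      (1 + X i (2 * q ^ (-i)) φ n s * X i (2 * q ^ (-i)) φ (n + 1) s)
          * (X i (2 * q ^ (-i)) φ (n + 2) s - X i (2 * q ^ (-i)) φ (n + 1) s) ^ (1 + i)
        ≤ (1 + X i (2 * q ^ (-i)) φ (n + 1) s * X i (2 * q ^ (-i)) φ (n + 2) s)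
          * (X i (2 * q ^ (-i)) φ (n + 1) s - X i (2 * q ^ (-i)) φ n s) ^ (1 + i))
    (hr : ∃ a b : ℝ, 1 < a ∧ ∀ n, 2 ≤ n → ∀ s ∈ Icc (0:ℝ) 1,
      0 < X i (2 * q ^ (-i)) φ n s ∧
      a * X i (2 * q ^ (-i)) φ n s ≤ X i (2 * q ^ (-i)) φ (n + 1) s ∧
      X i (2 * q ^ (-i)) φ (n + 1) s ≤ b * X i (2 * q ^ (-i)) φ n s) :
    OrbitData i (2 * q ^ (-i)) (X i (2 * q ^ (-i)) φ) := by
  sorry

/-- T8. Negative `i`: `φ t = 3 t`, `q = 3`. One orbit. -/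
theorem T8_neg {i : ℝ} (hi : i < 0) (x : ℕ → ℝ) (s : ℝ) (hs : s ∈ Icc (0:ℝ) 1)
    (h0 : x 0 = 3 * (s - 1)) (h1 : x 1 = 3 * s)
    (hx : ∀ n, x (n + 2) = F i (2 * 3 ^ (-i)) (x (n + 1)) (x n)) :
    (∀ n, x n < x (n + 1)) ∧
    (∀ n, (x (n + 1) - x n) ^ (-i) < (2 * 3 ^ (-i)) * (1 + (x (n + 1)) ^ 2) ^ (-i / 2)) ∧
    (∀ n, (1 + x n * x (n + 1)) * (x (n + 2) - x (n + 1)) ^ (1 + i)
        ≤ (1 + x (n + 1) * x (n + 2)) * (x (n + 1) - x n) ^ (1 + i)) ∧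
    (∀ n, 2 ≤ n → 0 < x n ∧ 4 * x n ≤ x (n + 1) ∧
      x (n + 1) ≤ (1 + 6 * (2:ℝ) ^ (-1 / i)) * x n) := by
  sorry

/-- T9a. Elementary inequalities for `α^i + β^i = 2`, `0 < i < 1`. -/
theorem T9a_basic {i α β : ℝ} (hi0 : 0 < i) (hi1 : i < 1) (hα : 0 < α) (hα1 : α ≤ 1)
    (hβ : 1 ≤ β) (h : α ^ i + β ^ i = 2) :
    2 ≤ α + β ∧ α * β ≤ 1 ∧
    ((β - α) / 2 ≤ 1 / 2 →
      β ^ (1 + i) - α ^ (1 + i) ≤ (β - α) * (1 + i + i * ((β - α) / 2))) := by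
  sorry

/-- T9b. The slope of `β ↦ α` is between `-1` and `-α'/β'`. -/
theorem T9b_lip {i α β α' β' : ℝ} (hi0 : 0 < i) (hi1 : i < 1) (hα' : 0 < α')
    (hα1 : α ≤ 1) (hα : 0 < α) (hα'1 : α' ≤ 1) (hβ : 1 ≤ β) (hββ : β ≤ β') (h : α ^ i + β ^ i = 2)
    (h' : α' ^ i + β' ^ i = 2) :
    α - α' ≤ β' - β ∧ (α' / β') * (β' - β) ≤ α - α' := by
  sorry

/-- T9c. The induction step. -/
theorem T9c_step {i d S α β S' α' β' : ℝ} (hi0 : 0 < i) (hi1 : i < 1) (hd : 0 < d)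
    (hd1 : d ≤ 1 / 64) (hS : 0 ≤ S) (hS1 : S ≤ 1) (hα : 0 < α) (hα1 : α ≤ 1) (hβ : 1 ≤ β)
    (h : α ^ i + β ^ i = 2) (hβ'0 : 0 < β') (hβ' : β' ^ 2 = α ^ 2 + 4 * d * S * α + 4 * d ^ 2)
    (hS' : S' * β' = α * S + 2 * d) (hα' : 0 < α') (hα'1 : α' ≤ 1) (h' : α' ^ i + β' ^ i = 2)
    (hz : |2 * d * S - (β - α)| ≤ 8 * d ^ 2 * S ^ 2) :
    1 ≤ β' ∧ β' ≤ 1 + 2 * d ∧ S ≤ S' ∧ S' ≤ 1 ∧
      |2 * d * S' - (β' - α')| ≤ 8 * d ^ 2 * S' ^ 2 := by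
  sorry

/-- T9d. The case `0 < i < 1`: one orbit. Here `q = 2 d`, `φ t = sinh (2 y t) / cosh y` with
`sinh y = d`. -/
theorem T9d_pos {i d y : ℝ} (hi0 : 0 < i) (hi1 : i < 1) (hd : 0 < d) (hd1 : 64 * d ≤ 1 - i)
    (hy : Real.sinh y = d) (x : ℕ → ℝ) (s : ℝ) (hs : s ∈ Icc (0:ℝ) 1)
    (h0 : x 0 = Real.sinh (2 * y * (s - 1)) / Real.cosh y)
    (h1 : x 1 = Real.sinh (2 * y * s) / Real.cosh y)
    (hx : ∀ n, x (n + 2) = F i (2 * (2 * d) ^ (-i)) (x (n + 1)) (x n)) :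
    (∀ n, x n < x (n + 1)) ∧
    (∀ n, (x (n + 1) - x n) ^ (-i)
        < (2 * (2 * d) ^ (-i)) * (1 + (x (n + 1)) ^ 2) ^ (-i / 2)) ∧
    (∀ n, (1 + x n * x (n + 1)) * (x (n + 2) - x (n + 1)) ^ (1 + i)
        ≤ (1 + x (n + 1) * x (n + 2)) * (x (n + 1) - x n) ^ (1 + i)) ∧
    (∀ n, 2 ≤ n → 0 < x n ∧ (1 + 2 * d) * x n ≤ x (n + 1) ∧ x (n + 1) ≤ 5 * x n) := by
  sorry

/-- T10. Main theorem. -/
theorem main {i : ℝ} (hi1 : i < 1) (hi0 : i ≠ 0) {n : ℕ} (hn : 2 ≤ n) :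
    ∃ L : Set (E n), IsBody L ∧
      ∃ p q : E n, p ≠ q ∧ IsEquichordal i L p ∧ IsEquichordal i L q := by
  have key : ∃ A : ℝ, ∃ X : ℕ → ℝ → ℝ, OrbitData i A X := by
    rcases lt_or_gt_of_ne hi0 with hneg | hpos
    · -- negative case
      refine ⟨2 * 3 ^ (-i), X i (2 * 3 ^ (-i)) (fun t => 3 * t), ?_⟩
      have H : ∀ s ∈ Icc (0:ℝ) 1, _ := fun s hs =>
        T8_neg hneg (fun n => X i (2 * 3 ^ (-i)) (fun t => 3 * t) n s) s hs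
          (by simp [X]) (by simp [X]) (fun n => by simp [X])
      refine T7_orbit (φ' := fun _ => 3) hi0 hi1 (by norm_num) ?_ (fun _ => by norm_num) ?_ ?_
        (fun n s hs => (H s hs).1 n) (fun n s hs => (H s hs).2.1 n)
        (fun n s hs => (H s hs).2.2.1 n)
        ⟨4, 1 + 6 * (2:ℝ) ^ (-1 / i), by norm_num, fun n hn s hs => (H s hs).2.2.2 n hn⟩
      · intro t
        simpa using (hasDerivAt_id t).const_mul (3:ℝ)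
      · intro t; ring
      · norm_num
    · -- positive case
      obtain ⟨d, hd, hd1⟩ : ∃ d : ℝ, 0 < d ∧ 64 * d ≤ 1 - i :=
        ⟨(1 - i) / 64, by linarith, by linarith⟩
      have hy : Real.sinh (Real.arsinh d) = d := Real.sinh_arsinh d
      have hy0 : 0 < Real.arsinh d := Real.arsinh_pos_iff.2 hd
      have hch : 0 < Real.cosh (Real.arsinh d) := Real.cosh_pos _
      refine ⟨2 * (2 * d) ^ (-i), X i (2 * (2 * d) ^ (-i))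
        (fun t => Real.sinh (2 * Real.arsinh d * t) / Real.cosh (Real.arsinh d)), ?_⟩
      have H : ∀ s ∈ Icc (0:ℝ) 1, _ := fun s hs =>
        T9d_pos hpos hi1 hd hd1 hy (fun n => X i (2 * (2 * d) ^ (-i))
          (fun t => Real.sinh (2 * Real.arsinh d * t) / Real.cosh (Real.arsinh d)) n s) s hs
          (by simp [X]) (by simp [X]) (fun n => by simp [X])
      refine T7_orbit (q := 2 * d) (φ' := fun t => Real.cosh (2 * Real.arsinh d * t)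
          * (2 * Real.arsinh d) / Real.cosh (Real.arsinh d)) hi0 hi1 (by linarith) ?_ ?_ ?_ ?_
        (fun n s hs => (H s hs).1 n) (fun n s hs => (H s hs).2.1 n)
        (fun n s hs => (H s hs).2.2.1 n)
        ⟨1 + 2 * d, 5, by linarith, fun n hn s hs => (H s hs).2.2.2 n hn⟩
      · intro t
        have h1 : HasDerivAt (fun t : ℝ => 2 * Real.arsinh d * t) (2 * Real.arsinh d) t := by
          simpa using (hasDerivAt_id t).const_mul (2 * Real.arsinh d)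
        exact (h1.sinh).div_const _
      · intro t
        have := Real.cosh_pos (2 * Real.arsinh d * t)
        positivity
      · intro t
        rw [mul_neg, Real.sinh_neg, neg_div]
      · rw [mul_one, Real.sinh_two_mul, hy]
        field_simp
  obtain ⟨A, X, hX⟩ := key
  obtain ⟨Φ, hm, hs, ho, he, a, b, T, ha, hb⟩ := T5_Phi hX
  obtain ⟨τ, hτ, Λ, hΛ, hlim⟩ := T6_trans hi0 hi1 hm hs ho he ha hb
  exact T3_body hi0 hτ hΛ hlim hn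

end Pool.Agent.H892R2.EC
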