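import Pool.Agent.H892R2.EC.Defs

/-!
# MP_5e4080_gt: T1, gauges give star bodies (helper431)
-/

namespace Pool.Agent.H892R2.EC

open Set Filter Topology

section
variable {V : Type*} [NormedAddCommGroup V] [InnerProductSpace ℝ V]

theorem T1_N0 (N : V → ℝ) (hh : ∀ t : ℝ, 0 ≤ t → ∀ x, N (t • x) = t * N x) : N 0 = 0 := by
  have := hh 0 le_rfl 0
  simpa using this

theorem T1_set (N : V → ℝ) (hh : ∀ t : ℝ, 0 ≤ t → ∀ x, N (t • x) = t * N x)
    (hp : ∀ x, x ≠ 0 → 0 < N x) (u : V) (hu : u ≠ 0) :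
    {t : ℝ | 0 ≤ t ∧ t • u ∈ {x : V | N x ≤ 1}} = Icc 0 (N u)⁻¹ := by
  ext t
  simp only [mem_ofPred_eq, mem_Icc]
  have hN := hp u hu
  constructor
  · rintro ⟨h0, h1⟩
    refine ⟨h0, ?_⟩
    rw [hh t h0] at h1
    rw [← one_div, le_div_iff₀ hN]
    exact h1
  · rintro ⟨h0, h1⟩
    refine ⟨h0, ?_⟩
    rw [hh t h0]
    rw [← one_div, le_div_iff₀ hN] at h1
    exact h1

theorem T1_sSup (N : V → ℝ) (hh : ∀ t : ℝ, 0 ≤ t → ∀ x, N (t • x) = t * N x)
    (hp : ∀ x, x ≠ 0 → 0 < N x) (u : V) (hu : u ≠ 0) :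
    sSup {t : ℝ | 0 ≤ t ∧ t • u ∈ {x : V | N x ≤ 1}} = (N u)⁻¹ := by
  rw [T1_set N hh hp u hu]
  exact csSup_Icc (inv_nonneg.2 (hp u hu).le)

theorem T1_lower [FiniteDimensional ℝ V] [Nontrivial V] (N : V → ℝ) (hc : Continuous N)
    (hh : ∀ t : ℝ, 0 ≤ t → ∀ x, N (t • x) = t * N x)
    (hp : ∀ x, x ≠ 0 → 0 < N x) : ∃ m : ℝ, 0 < m ∧ ∀ x, m * ‖x‖ ≤ N x := by
  have hK : IsCompact (Metric.sphere (0 : V) 1) := isCompact_sphere 0 1
  have hne : (Metric.sphere (0 : V) 1).Nonempty := NormedSpace.sphere_nonempty.2 zero_le_one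
  obtain ⟨u, hu, hmin⟩ := hK.exists_isMinOn hne hc.continuousOn
  have hu0 : u ≠ 0 := by
    rintro rfl
    simp at hu
  refine ⟨N u, hp u hu0, fun x => ?_⟩
  by_cases hx : x = 0
  · subst hx
    simp [T1_N0 N hh]
  · have hx' : 0 < ‖x‖ := norm_pos_iff.2 hx
    have h1 : (‖x‖⁻¹ • x) ∈ Metric.sphere (0 : V) 1 := by
      rw [mem_sphere_zero_iff_norm, norm_smul, norm_inv, norm_norm, inv_mul_cancel₀ hx'.ne']
    have h2 := hmin h1
    simp only [mem_ofPred_eq] at h2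
    rw [hh _ (inv_nonneg.2 hx'.le)] at h2
    calc N u * ‖x‖ ≤ (‖x‖⁻¹ * N x) * ‖x‖ := by gcongr
      _ = N x := by field_simp

theorem T1_compact [FiniteDimensional ℝ V] [Nontrivial V] (N : V → ℝ) (hc : Continuous N)
    (hh : ∀ t : ℝ, 0 ≤ t → ∀ x, N (t • x) = t * N x)
    (hp : ∀ x, x ≠ 0 → 0 < N x) : IsCompact {x : V | N x ≤ 1} := by
  obtain ⟨m, hm, hm'⟩ := T1_lower N hc hh hp
  refine Metric.isCompact_of_isClosed_isBounded (isClosed_le hc continuous_const) ?_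
  refine (Metric.isBounded_closedBall (x := (0 : V)) (r := 1 / m)).subset ?_
  intro x hx
  rw [mem_closedBall_zero_iff, le_div_iff₀ hm]
  have := hm' x
  simp only [mem_ofPred_eq] at hx
  linarith

theorem T1_interior (N : V → ℝ) (hc : Continuous N) : {x : V | N x < 1} ⊆ interior {x : V | N x ≤ 1} :=
  interior_maximal (fun x hx => show N x ≤ 1 from le_of_lt (show N x < 1 from hx))
    (isOpen_lt hc continuous_const)

theorem T1_zero (N : V → ℝ) (hc : Continuous N)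
    (hh : ∀ t : ℝ, 0 ≤ t → ∀ x, N (t • x) = t * N x) : (0 : V) ∈ interior {x : V | N x ≤ 1} := by
  apply T1_interior N hc
  simp [T1_N0 N hh]

theorem T1_closure (N : V → ℝ) (hc : Continuous N)
    (hh : ∀ t : ℝ, 0 ≤ t → ∀ x, N (t • x) = t * N x) :
    closure (interior {x : V | N x ≤ 1}) = {x : V | N x ≤ 1} := by
  apply Subset.antisymm
  · exact closure_minimal interior_subset (isClosed_le hc continuous_const)
  · intro x hx
    have hcl : (1 : ℝ) ∈ closure (Ico (0:ℝ) 1) := by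
      rw [closure_Ico (by norm_num)]; simp
    have hf : Continuous (fun t : ℝ => t • x) := by fun_prop
    have h1 : (1 : ℝ) • x ∈ closure ((fun t : ℝ => t • x) '' (Ico (0:ℝ) 1)) :=
      image_closure_subset_closure_image hf ⟨1, hcl, rfl⟩
    rw [one_smul] at h1
    refine closure_mono ?_ h1
    rintro _ ⟨t, ht, rfl⟩
    apply T1_interior N hc
    simp only [mem_ofPred_eq] at hx ⊢
    rw [hh t ht.1]
    by_cases h0 : t = 0
    · subst h0; simp
    · have : 0 < t := lt_of_le_of_ne ht.1 (Ne.symm h0)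
      calc t * N x ≤ t * 1 := by gcongr
        _ < 1 := by rw [mul_one]; exact ht.2

end

/-- T1. Gauges give star bodies. -/
theorem T1_gauge {n : ℕ} (hn : 2 ≤ n) (N : E n → ℝ) (hc : Continuous N)
    (hh : ∀ t : ℝ, 0 ≤ t → ∀ x, N (t • x) = t * N x) (hp : ∀ x, x ≠ 0 → 0 < N x) :
    IsStarBody {x : E n | N x ≤ 1} ∧
    (∀ u : E n, u ≠ 0 → radial {x : E n | N x ≤ 1} u = (N u)⁻¹) ∧
    IsBody {x : E n | N x ≤ 1} ∧ (0 : E n) ∈ interior {x : E n | N x ≤ 1} := by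
  haveI : NeZero n := ⟨by omega⟩
  haveI : Nontrivial (E n) := by
    refine ⟨⟨EuclideanSpace.single 0 1, 0, ?_⟩⟩
    intro h
    have := congrArg norm h
    simp at this
  have hrad : ∀ u : E n, u ≠ 0 → radial {x : E n | N x ≤ 1} u = (N u)⁻¹ := fun u hu =>
    T1_sSup N hh hp u hu
  have hcomp : IsCompact {x : E n | N x ≤ 1} := T1_compact N hc hh hp
  refine ⟨⟨hcomp, ?_, ?_, ?_⟩, hrad, ⟨hcomp, (T1_closure N hc hh).symm⟩, T1_zero N hc hh⟩
  · intro x hx t ht
    show N (t • x) ≤ 1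
    rw [hh t ht.1]
    have hx' : N x ≤ 1 := hx
    have h0 : 0 ≤ N x := by
      by_cases h : x = 0
      · rw [h, T1_N0 N hh]
      · exact (hp x h).le
    nlinarith [ht.1, ht.2]
  · intro u hu
    have hu0 : u ≠ 0 := by
      rintro rfl
      simp at hu
    rw [hrad u hu0]
    exact inv_pos.2 (hp u hu0)
  · have h1 : ContinuousOn (fun u : E n => (N u)⁻¹) (Metric.sphere (0 : E n) 1) := by
      apply ContinuousOn.inv₀ hc.continuousOn
      intro u hu
      have hu0 : u ≠ 0 := by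
        rintro rfl
        simp at hu
      exact (hp u hu0).ne'
    refine h1.congr ?_
    intro u hu
    have hu0 : u ≠ 0 := by
      rintro rfl
      simp at hu
    exact hrad u hu0

end Pool.Agent.H892R2.EC
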