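import Pool.Agent.H892R2.EC.Defs

/-!
# MP_5e4080_gt, T2a: continuity of the perspective
-/

namespace Pool.Agent.H892R2.EC

open Set Filter Topology

theorem T2a_tau_cont {τ : ℝ → ℝ} (hm : StrictMono τ) (hs : Function.Surjective τ) :
    Continuous τ := (hm.orderIsoOfSurjective τ hs).continuous

theorem T2a_tau_bot {τ : ℝ → ℝ} (hm : StrictMono τ) (hs : Function.Surjective τ) :
    Tendsto τ atBot atBot := (hm.orderIsoOfSurjective τ hs).tendsto_atBot

theorem T2a_lim_bot {τ : ℝ → ℝ} {Λ : ℝ} (hm : StrictMono τ) (hs : Function.Surjective τ)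
    (hinv : ∀ c, τ (-τ c) = -c) (hΛ : 1 < Λ)
    (hlim : Tendsto (fun c => τ c / c) atTop (𝓝 Λ)) :
    Tendsto (fun c => τ c / c) atBot (𝓝 Λ⁻¹) := by
  have h1 : Tendsto (fun y => - τ y) atBot atTop := tendsto_neg_atBot_atTop.comp (T2a_tau_bot hm hs)
  have h2 := (hlim.comp h1).inv₀ (by positivity)
  refine h2.congr fun y => ?_
  simp only [Function.comp]
  rw [hinv, inv_div, neg_div_neg_eq]

theorem T2a_bound {τ : ℝ → ℝ} {Λ : ℝ} (hm : StrictMono τ) (hs : Function.Surjective τ)
    (hinv : ∀ c, τ (-τ c) = -c) (hΛ : 1 < Λ)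
    (hlim : Tendsto (fun c => τ c / c) atTop (𝓝 Λ)) :
    ∃ K : ℝ, 0 ≤ K ∧ ∀ c, |τ c| ≤ K * (1 + |c|) := by
  have hbot := T2a_lim_bot hm hs hinv hΛ hlim
  have e1 : ∀ᶠ c in atTop, |τ c / c| < Λ + 1 := by
    have := hlim.abs
    rw [abs_of_pos (by linarith : (0:ℝ) < Λ)] at this
    exact this.eventually (gt_mem_nhds (by linarith))
  have e2 : ∀ᶠ c in atBot, |τ c / c| < Λ + 1 := by
    have := hbot.abs
    have hΛ' : Λ⁻¹ < Λ + 1 := by
      have : Λ⁻¹ < 1 := inv_lt_one_of_one_lt₀ hΛ
      linarith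
    rw [abs_of_pos (by positivity : (0:ℝ) < Λ⁻¹)] at this
    exact this.eventually (gt_mem_nhds hΛ')
  obtain ⟨M, hM⟩ := (e1.and (eventually_gt_atTop 0)).exists_forall_of_atTop
  obtain ⟨m, hm'⟩ := (e2.and (eventually_lt_atBot 0)).exists_forall_of_atBot
  have key : ∀ c : ℝ, c ≠ 0 → |τ c / c| < Λ + 1 → |τ c| ≤ (Λ + 1) * |c| := by
    intro c hc h
    rw [abs_div, div_lt_iff₀ (abs_pos.mpr hc)] at h
    exact h.le
  refine ⟨(Λ + 1) + |τ M| + |τ m|, by positivity, fun c => ?_⟩
  have hL : 0 < Λ + 1 := by linarith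
  have hc0 := abs_nonneg c
  have hM0 := abs_nonneg (τ M)
  have hm0 := abs_nonneg (τ m)
  rcases le_or_gt M c with h | h
  · have h1 := key c (hM c h).2.ne' (hM c h).1
    nlinarith
  · rcases le_or_gt c m with h' | h'
    · have h1 := key c (hm' c h').2.ne (hm' c h').1
      nlinarith
    · have h1 : τ c ≤ τ M := hm.monotone h.le
      have h2 : τ m ≤ τ c := hm.monotone h'.le
      have h3 : |τ c| ≤ |τ M| + |τ m| := by
        rw [abs_le]
        have := neg_abs_le (τ m)
        have := le_abs_self (τ M)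
        constructor <;> linarith
      nlinarith

theorem T2a_cont {i A Λ : ℝ} {τ : ℝ → ℝ} (hT : Trans i A τ) (hΛ : 1 < Λ)
    (hlim : Tendsto (fun c => τ c / c) atTop (𝓝 Λ)) :
    ContinuousOn (fun z : ℝ × ℝ => P Λ τ z.1 z.2) {z | 0 ≤ z.2} := by
  have hm := hT.mono
  have hinv := hT.inv
  have hs : Function.Surjective τ := fun y => ⟨-(τ (-y)), by rw [hinv, neg_neg]⟩
  have hcτ := T2a_tau_cont hm hs
  have hbot := T2a_lim_bot hm hs hinv hΛ hlim
  have hΛ0 : 0 < Λ := by linarith
  rintro ⟨x0, r0⟩ hr0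
  replace hr0 : 0 ≤ r0 := hr0
  rcases hr0.eq_or_lt with h0 | h0
  · subst h0
    -- boundary
    have hsplit : {z : ℝ × ℝ | 0 ≤ z.2} = {z | z.2 = 0} ∪ {z | 0 < z.2} := by
      ext z
      simp only [Set.mem_ofPred_eq, mem_union]
      constructor
      · intro h
        rcases h.eq_or_lt with h | h
        · exact Or.inl h.symm
        · exact Or.inr h
      · rintro (h | h)
        · exact h.ge
        · exact h.le
    have hx : Tendsto (fun z : ℝ × ℝ => z.1) (𝓝 (x0, (0:ℝ))) (𝓝 x0) := continuous_fst.tendsto _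
    have hr : Tendsto (fun z : ℝ × ℝ => z.2) (𝓝 (x0, (0:ℝ))) (𝓝 0) := continuous_snd.tendsto _
    have hrinv : Tendsto (fun z : ℝ × ℝ => (z.2)⁻¹) (𝓝[{z | 0 < z.2}] (x0, (0:ℝ))) atTop := by
      refine tendsto_inv_nhdsGT_zero.comp ?_
      exact tendsto_nhdsWithin_of_tendsto_nhds_of_eventually_within _
        (hr.mono_left nhdsWithin_le_nhds) self_mem_nhdsWithin
    rcases lt_trichotomy x0 0 with hx0 | hx0 | hx0
    · -- x0 < 0
      rw [hsplit, continuousWithinAt_union]
      have hPv : P Λ τ x0 0 = x0 * Λ⁻¹ := by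
        simp [P, not_le.mpr hx0, div_eq_mul_inv]
      constructor
      · unfold ContinuousWithinAt
        simp only
        rw [hPv]
        have h1 : Tendsto (fun z : ℝ × ℝ => z.1 * Λ⁻¹) (𝓝[{z | z.2 = 0}] (x0, (0:ℝ)))
            (𝓝 (x0 * Λ⁻¹)) := (hx.mul_const _).mono_left nhdsWithin_le_nhds
        refine h1.congr' ?_
        filter_upwards [self_mem_nhdsWithin,
          (hx.eventually (gt_mem_nhds hx0)).filter_mono nhdsWithin_le_nhds] with z hz hz1
        replace hz : z.2 = 0 := hz
        simp [P, hz, not_le.mpr hz1, div_eq_mul_inv]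
      · unfold ContinuousWithinAt
        simp only
        rw [hPv]
        have hu : Tendsto (fun z : ℝ × ℝ => z.1 / z.2) (𝓝[{z | 0 < z.2}] (x0, (0:ℝ))) atBot := by
          simp only [div_eq_mul_inv]
          exact (hx.mono_left nhdsWithin_le_nhds).neg_mul_atTop hx0 hrinv
        have h1 := (hx.mono_left (nhdsWithin_le_nhds (s := {z : ℝ × ℝ | 0 < z.2}))).mul
          (hbot.comp hu)
        refine h1.congr' ?_
        filter_upwards [self_mem_nhdsWithin,
          (hx.eventually (gt_mem_nhds hx0)).filter_mono nhdsWithin_le_nhds] with z hz hz1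
        replace hz : 0 < z.2 := hz
        simp only [Function.comp, P, hz.ne', if_false]
        have := hz.ne'
        have := hz1.ne
        field_simp
    · -- x0 = 0
      subst hx0
      obtain ⟨K, hK0, hK⟩ := T2a_bound hm hs hinv hΛ hlim
      unfold ContinuousWithinAt
      have hPv : P Λ τ 0 0 = 0 := by simp [P]
      simp only
      rw [hPv]
      have hg : Tendsto (fun z : ℝ × ℝ => (K + Λ) * (|z.1| + |z.2|))
          (𝓝[{z | 0 ≤ z.2}] ((0:ℝ), (0:ℝ))) (𝓝 0) := by
        have h1 : Continuous (fun z : ℝ × ℝ => (K + Λ) * (|z.1| + |z.2|)) := by fun_prop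
        have h2 := h1.tendsto ((0:ℝ), (0:ℝ))
        simp only [abs_zero, add_zero, mul_zero] at h2
        exact h2.mono_left nhdsWithin_le_nhds
      refine squeeze_zero_norm' ?_ hg
      filter_upwards [self_mem_nhdsWithin] with z hz
      replace hz : 0 ≤ z.2 := hz
      rw [Real.norm_eq_abs]
      have hz1 := abs_nonneg z.1
      have hz2 := abs_nonneg z.2
      by_cases h : z.2 = 0
      · simp only [P, h, if_true]
        split_ifs with h'
        · rw [abs_mul, abs_of_pos hΛ0, abs_zero, add_zero]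
          nlinarith [mul_nonneg hK0 hz1]
        · rw [abs_div, abs_of_pos hΛ0, div_le_iff₀ hΛ0, abs_zero, add_zero]
          nlinarith [mul_nonneg hK0 hz1, mul_nonneg hΛ0.le hz1]
      · have hz' : 0 < z.2 := lt_of_le_of_ne hz (Ne.symm h)
        simp only [P, h, if_false]
        rw [abs_mul]
        have h1 := hK (z.1 / z.2)
        have h2 : |z.2| * |τ (z.1 / z.2)| ≤ |z.2| * (K * (1 + |z.1 / z.2|)) :=
          mul_le_mul_of_nonneg_left h1 hz2
        have h3 : |z.2| * (K * (1 + |z.1 / z.2|)) = K * (|z.2| + |z.1|) := by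
          rw [abs_div]
          have : |z.2| ≠ 0 := abs_ne_zero.mpr h
          field_simp
        nlinarith
    · -- x0 > 0
      rw [hsplit, continuousWithinAt_union]
      have hPv : P Λ τ x0 0 = x0 * Λ := by
        simp [P, hx0.le, mul_comm]
      constructor
      · unfold ContinuousWithinAt
        simp only
        rw [hPv]
        have h1 : Tendsto (fun z : ℝ × ℝ => z.1 * Λ) (𝓝[{z | z.2 = 0}] (x0, (0:ℝ)))
            (𝓝 (x0 * Λ)) := (hx.mul_const _).mono_left nhdsWithin_le_nhds
        refine h1.congr' ?_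
        filter_upwards [self_mem_nhdsWithin,
          (hx.eventually (lt_mem_nhds hx0)).filter_mono nhdsWithin_le_nhds] with z hz hz1
        replace hz : z.2 = 0 := hz
        simp [P, hz, hz1.le, mul_comm]
      · unfold ContinuousWithinAt
        simp only
        rw [hPv]
        have hu : Tendsto (fun z : ℝ × ℝ => z.1 / z.2) (𝓝[{z | 0 < z.2}] (x0, (0:ℝ))) atTop := by
          simp only [div_eq_mul_inv]
          exact (hx.mono_left nhdsWithin_le_nhds).pos_mul_atTop hx0 hrinv
        have h1 := (hx.mono_left (nhdsWithin_le_nhds (s := {z : ℝ × ℝ | 0 < z.2}))).mul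
          (hlim.comp hu)
        refine h1.congr' ?_
        filter_upwards [self_mem_nhdsWithin,
          (hx.eventually (lt_mem_nhds hx0)).filter_mono nhdsWithin_le_nhds] with z hz hz1
        replace hz : 0 < z.2 := hz
        simp only [Function.comp, P, hz.ne', if_false]
        have := hz.ne'
        have := hz1.ne'
        field_simp
  · -- interior
    have hca : ContinuousAt (fun z : ℝ × ℝ => z.2 * τ (z.1 / z.2)) (x0, r0) := by
      have h1 : ContinuousAt (fun z : ℝ × ℝ => z.1 / z.2) (x0, r0) :=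
        continuousAt_fst.div continuousAt_snd h0.ne'
      exact continuousAt_snd.mul (hcτ.continuousAt.comp h1)
    refine (hca.congr ?_).continuousWithinAt
    have hr : Tendsto (fun z : ℝ × ℝ => z.2) (𝓝 (x0, r0)) (𝓝 r0) := continuous_snd.tendsto _
    filter_upwards [hr.eventually (lt_mem_nhds h0)] with z hz
    simp [P, hz.ne']

end Pool.Agent.H892R2.EC
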