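import Pool.Agent.H892R2.EC.T2a

/-!
# MP_5e4080_gt: task T2b, algebraic properties of the perspective
-/

set_option autoImplicit false

namespace Pool.Agent.H892R2.EC

open Set Filter Topology

theorem T2b_hom {Λ : ℝ} {τ : ℝ → ℝ} (x r t : ℝ) (ht : 0 ≤ t) :
    P Λ τ (t * x) (t * r) = t * P Λ τ x r := by
  rcases eq_or_lt_of_le ht with rfl | ht
  · simp [P]
  · unfold P
    by_cases hr : r = 0
    · subst hr
      simp only [mul_zero, if_true]
      by_cases hx : 0 ≤ x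
      · rw [if_pos hx, if_pos (mul_nonneg ht.le hx)]; ring
      · rw [if_neg hx, if_neg (by
          push Not at hx ⊢
          exact mul_neg_of_pos_of_neg ht hx)]
        ring
    · rw [if_neg hr, if_neg (mul_ne_zero ht.ne' hr), mul_div_mul_left _ _ ht.ne']
      ring

theorem T2b_gt {i A Λ : ℝ} {τ : ℝ → ℝ} (hT : Trans i A τ) (hΛ : 1 < Λ) (x r : ℝ) (hr : 0 ≤ r)
    (hxr : (x, r) ≠ (0, 0)) : x < P Λ τ x r := by
  unfold P
  by_cases h0 : r = 0
  · subst h0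
    have hx0 : x ≠ 0 := fun h => hxr (by rw [h])
    rw [if_pos rfl]
    by_cases hx : 0 ≤ x
    · rw [if_pos hx]
      have : 0 < x := lt_of_le_of_ne hx (Ne.symm hx0)
      nlinarith
    · rw [if_neg hx]
      push Not at hx
      rw [lt_div_iff₀ (by linarith)]
      nlinarith
  · rw [if_neg h0]
    have hr' : 0 < r := lt_of_le_of_ne hr (Ne.symm h0)
    have h := mul_lt_mul_of_pos_left (hT.gt (x / r)) hr'
    rwa [mul_div_cancel₀ _ h0] at h

theorem T2b_adj {i A Λ : ℝ} {τ : ℝ → ℝ} (hT : Trans i A τ) (hΛ : 1 < Λ) (a b r : ℝ)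
    (hr : 0 ≤ r) (h : P Λ τ a r ≤ b) : P Λ τ (-b) r ≤ -a := by
  have hL : (0:ℝ) < Λ := by linarith
  unfold P at h ⊢
  by_cases h0 : r = 0
  · subst h0
    simp only [if_true] at h ⊢
    by_cases ha : 0 ≤ a
    · rw [if_pos ha] at h
      have hb : 0 ≤ b := le_trans (mul_nonneg hL.le ha) h
      rcases eq_or_lt_of_le hb with hb | hb
      · subst hb
        have : a = 0 := by nlinarith
        subst this
        simp
      · rw [if_neg (by linarith), div_le_iff₀ hL]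
        linarith
    · rw [if_neg ha] at h
      push Not at ha
      by_cases hb : 0 ≤ -b
      · rw [if_pos hb]
        rw [div_le_iff₀ hL] at h
        linarith
      · rw [if_neg hb]
        push Not at hb
        have : -b / Λ < 0 := div_neg_of_neg_of_pos hb hL
        linarith
  · rw [if_neg h0] at h ⊢
    have hr' : 0 < r := lt_of_le_of_ne hr (Ne.symm h0)
    have h1 : τ (a / r) ≤ b / r := by
      rw [le_div_iff₀ hr']; linarith
    have h2 : τ (-b / r) ≤ τ (-τ (a / r)) := by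
      refine hT.mono.monotone ?_
      rw [neg_div]
      linarith
    rw [hT.inv] at h2
    have h3 := mul_le_mul_of_nonneg_left h2 hr
    rwa [mul_neg, mul_div_cancel₀ _ h0] at h3

theorem T2b_sum {i A Λ : ℝ} {τ : ℝ → ℝ} (hT : Trans i A τ) (x r : ℝ) (hr : 0 < r)
    (h : x ^ 2 + r ^ 2 = 1) :
    (P Λ τ x r - x) ^ (-i) + (P Λ τ (-x) r + x) ^ (-i) = A := by
  unfold P
  rw [if_neg hr.ne', if_neg hr.ne']
  have e1 : r * τ (x / r) - x = r * (τ (x / r) - x / r) := by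
    field_simp
  have e2 : r * τ (-x / r) + x = r * (τ (-(x / r)) + x / r) := by
    rw [neg_div]; field_simp
  have p1 : 0 < τ (x / r) - x / r := by have := hT.gt (x / r); linarith
  have p2 : 0 < τ (-(x / r)) + x / r := by have := hT.gt (-(x / r)); linarith
  rw [e1, e2, Real.mul_rpow hr.le p1.le, Real.mul_rpow hr.le p2.le, ← mul_add, hT.eqn]
  have e3 : 1 + (x / r) ^ 2 = r ^ (-2 : ℝ) := by
    rw [Real.rpow_neg hr.le, div_pow]
    have : r ^ (2:ℝ) = r ^ 2 := by exact_mod_cast Real.rpow_natCast r 2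
    rw [this]
    field_simp
    linarith
  rw [e3, ← Real.rpow_mul hr.le, mul_left_comm, ← Real.rpow_add hr]
  have : -i + -2 * (-i / 2) = 0 := by ring
  rw [this, Real.rpow_zero, mul_one]

theorem T2b_zero {i A Λ : ℝ} {τ : ℝ → ℝ} (hT : Trans i A τ) (hΛ : 1 < Λ)
    (hlim : Tendsto (fun c => τ c / c) atTop (𝓝 Λ)) :
    (P Λ τ 1 0 - 1) ^ (-i) + (P Λ τ (-1) 0 + 1) ^ (-i) = A := by
  have hL : (0:ℝ) < Λ := by linarith
  have hc := T2a_cont hT hΛ hlim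
  -- the curve
  have hu : Tendsto (fun r : ℝ => Real.sqrt (1 - r ^ 2)) (𝓝[>] 0) (𝓝 1) := by
    have : Continuous (fun r : ℝ => Real.sqrt (1 - r ^ 2)) := by fun_prop
    have h := (this.tendsto 0).mono_left (nhdsWithin_le_nhds (s := Ioi (0:ℝ)))
    simpa using h
  have hid : Tendsto (fun r : ℝ => r) (𝓝[>] 0) (𝓝 0) := nhdsWithin_le_nhds
  have hmem : ∀ᶠ r : ℝ in 𝓝[>] (0:ℝ), 0 ≤ r :=
    eventually_nhdsWithin_of_forall fun r hr => (le_of_lt hr)
  have t1 : Tendsto (fun r : ℝ => P Λ τ (Real.sqrt (1 - r ^ 2)) r) (𝓝[>] 0) (𝓝 (P Λ τ 1 0)) := by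
    have h := hc (1, 0) (by simp)
    have h' : Tendsto (fun r : ℝ => ((Real.sqrt (1 - r ^ 2), r) : ℝ × ℝ)) (𝓝[>] 0)
        (𝓝[{z : ℝ × ℝ | 0 ≤ z.2}] (1, 0)) :=
      tendsto_nhdsWithin_iff.2 ⟨hu.prodMk_nhds hid, hmem⟩
    exact h.tendsto.comp h'
  have t2 : Tendsto (fun r : ℝ => P Λ τ (-Real.sqrt (1 - r ^ 2)) r) (𝓝[>] 0)
      (𝓝 (P Λ τ (-1) 0)) := by
    have h := hc (-1, 0) (by simp)
    have h' : Tendsto (fun r : ℝ => ((-Real.sqrt (1 - r ^ 2), r) : ℝ × ℝ)) (𝓝[>] 0)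
        (𝓝[{z : ℝ × ℝ | 0 ≤ z.2}] (-1, 0)) :=
      tendsto_nhdsWithin_iff.2 ⟨hu.neg.prodMk_nhds hid, hmem⟩
    exact h.tendsto.comp h'
  have v1 : P Λ τ 1 0 = Λ := by simp [P]
  have v2 : P Λ τ (-1) 0 = -1 / Λ := by
    unfold P
    rw [if_pos rfl, if_neg (by norm_num)]
  have n1 : P Λ τ 1 0 - 1 ≠ 0 := by rw [v1]; linarith
  have n2 : P Λ τ (-1) 0 + 1 ≠ 0 := by
    rw [v2]
    have : (1:ℝ) / Λ < 1 := by rw [div_lt_one hL]; exact hΛ
    have e : -1 / Λ + 1 = 1 - 1 / Λ := by ring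
    rw [e]; linarith
  have key : Tendsto (fun r : ℝ => (P Λ τ (Real.sqrt (1 - r ^ 2)) r - Real.sqrt (1 - r ^ 2)) ^ (-i)
      + (P Λ τ (-Real.sqrt (1 - r ^ 2)) r + Real.sqrt (1 - r ^ 2)) ^ (-i)) (𝓝[>] 0)
      (𝓝 ((P Λ τ 1 0 - 1) ^ (-i) + (P Λ τ (-1) 0 + 1) ^ (-i))) :=
    ((t1.sub hu).rpow_const (Or.inl n1)).add ((t2.add hu).rpow_const (Or.inl n2))
  have hev : ∀ᶠ r : ℝ in 𝓝[>] (0:ℝ),
      (P Λ τ (Real.sqrt (1 - r ^ 2)) r - Real.sqrt (1 - r ^ 2)) ^ (-i)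
      + (P Λ τ (-Real.sqrt (1 - r ^ 2)) r + Real.sqrt (1 - r ^ 2)) ^ (-i) = A := by
    have : Ioo (0:ℝ) 1 ∈ 𝓝[>] (0:ℝ) := Ioo_mem_nhdsGT one_pos
    filter_upwards [this] with r hr
    refine T2b_sum hT _ r hr.1 ?_
    rw [Real.sq_sqrt]
    · ring
    · nlinarith [hr.1, hr.2]
  have key2 : Tendsto (fun r : ℝ => (P Λ τ (Real.sqrt (1 - r ^ 2)) r - Real.sqrt (1 - r ^ 2)) ^ (-i)
      + (P Λ τ (-Real.sqrt (1 - r ^ 2)) r + Real.sqrt (1 - r ^ 2)) ^ (-i)) (𝓝[>] 0) (𝓝 A) :=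
    tendsto_const_nhds.congr' (hev.mono fun _ h => h.symm)
  exact tendsto_nhds_unique key key2

/-- T2b. The other properties of the perspective. -/
theorem T2b_props {i A Λ : ℝ} {τ : ℝ → ℝ} (hT : Trans i A τ) (hΛ : 1 < Λ)
    (hlim : Tendsto (fun c => τ c / c) atTop (𝓝 Λ)) :
    (∀ x r t : ℝ, 0 ≤ r → 0 ≤ t → P Λ τ (t * x) (t * r) = t * P Λ τ x r) ∧
    (∀ x r : ℝ, 0 ≤ r → (x, r) ≠ (0, 0) → x < P Λ τ x r) ∧
    (∀ a b r : ℝ, 0 ≤ r → (P Λ τ a r ≤ b ↔ P Λ τ (-b) r ≤ -a)) ∧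
    (∀ x r : ℝ, 0 ≤ r → x ^ 2 + r ^ 2 = 1 →
      (P Λ τ x r - x) ^ (-i) + (P Λ τ (-x) r + x) ^ (-i) = A) ∧ 0 < A := by
  refine ⟨fun x r t _ ht => T2b_hom x r t ht, fun x r hr h => T2b_gt hT hΛ x r hr h,
    fun a b r hr => ⟨T2b_adj hT hΛ a b r hr, fun h => ?_⟩, fun x r hr h => ?_, ?_⟩
  · have := T2b_adj hT hΛ (-b) (-a) r hr h
    simpa using this
  · rcases eq_or_lt_of_le hr with h0 | h0
    · subst h0
      have hx : x = 1 ∨ x = -1 := by
        have h2 : (x - 1) * (x + 1) = 0 := by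
          have : x ^ 2 = 1 := by simpa using h
          linarith [this, (by ring : (x - 1) * (x + 1) = x ^ 2 - 1)]
        rcases mul_eq_zero.1 h2 with h3 | h3
        · left; linarith
        · right; linarith
      rcases hx with rfl | rfl
      · exact T2b_zero hT hΛ hlim
      · have := T2b_zero hT hΛ hlim
        rw [neg_neg, add_comm, ← sub_eq_add_neg, sub_neg_eq_add]
        exact this
    · exact T2b_sum hT x r h0 h
  · have h := hT.eqn 0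
    have p1 : 0 < τ 0 := hT.gt 0
    simp only [sub_zero, neg_zero, add_zero] at h
    have p2 : 0 < (τ 0) ^ (-i) := Real.rpow_pos_of_pos p1 _
    have e : (1 + (0:ℝ) ^ 2) ^ (-i / 2) = 1 := by norm_num
    rw [e, mul_one] at h
    linarith

end Pool.Agent.H892R2.EC
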