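import Pool.Agent.H892R2.EC.Defs
import Pool.Agent.H892R2.EC.T1
import Pool.Agent.H892R2.EC.T2a
import Pool.Agent.H892R2.EC.T2b

/-!
# MP_5e4080_gt, T3: the body
-/

namespace Pool.Agent.H892R2.EC

open Set Filter Topology

/-- T3. The body. -/
theorem T3_body {i A Λ : ℝ} {τ : ℝ → ℝ} (hi : i ≠ 0) (hT : Trans i A τ) (hΛ : 1 < Λ)
    (hlim : Tendsto (fun c => τ c / c) atTop (𝓝 Λ)) {n : ℕ} (hn : 2 ≤ n) :
    ∃ L : Set (E n), IsBody L ∧
      ∃ p q : E n, p ≠ q ∧ IsEquichordal i L p ∧ IsEquichordal i L q := by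
  obtain ⟨hP1, hP2, hP3, hP4, hA⟩ := T2b_props hT hΛ hlim
  have hPc := T2a_cont hT hΛ hlim
  -- the unit vector
  obtain ⟨e, he⟩ : ∃ e : E n, ‖e‖ = 1 :=
    ⟨EuclideanSpace.single (⟨0, by omega⟩ : Fin n) (1:ℝ), by simp⟩
  have he0 : e ≠ 0 := by
    intro h; rw [h, norm_zero] at he; exact zero_ne_one he
  -- coordinates
  let x : E n → ℝ := fun z => inner ℝ e z
  let r : E n → ℝ := fun z => ‖z - x z • e‖
  have hxc : Continuous x := continuous_const.inner continuous_id
  have hrc : Continuous r := (continuous_id.sub (hxc.smul continuous_const)).norm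
  have hr0 : ∀ z, 0 ≤ r z := fun z => norm_nonneg _
  have hxe : x e = 1 := by
    show inner ℝ e e = (1:ℝ)
    rw [real_inner_self_eq_norm_sq, he]; norm_num
  have hxadd : ∀ z w, x (z + w) = x z + x w := fun z w => inner_add_right _ _ _
  have hxsmul : ∀ (t : ℝ) z, x (t • z) = t * x z := fun t z => real_inner_smul_right _ _ _
  have hxneg : ∀ z, x (-z) = - x z := fun z => inner_neg_right _ _
  have hxsub : ∀ z w, x (z - w) = x z - x w := fun z w => inner_sub_right _ _ _
  have hrsmul : ∀ (t : ℝ) z, 0 ≤ t → r (t • z) = t * r z := by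
    intro t z ht
    show ‖t • z - x (t • z) • e‖ = t * ‖z - x z • e‖
    rw [hxsmul, mul_smul, ← smul_sub, norm_smul, Real.norm_of_nonneg ht]
  have hrneg : ∀ z, r (-z) = r z := by
    intro z
    show ‖-z - x (-z) • e‖ = ‖z - x z • e‖
    rw [hxneg, neg_smul, ← neg_sub', norm_neg]
  have hrsub : ∀ z, r (z - e) = r z := by
    intro z
    show ‖z - e - x (z - e) • e‖ = ‖z - x z • e‖
    rw [hxsub, hxe, sub_smul, one_smul]
    congr 1
    abel
  have hpyth : ∀ z, ‖z‖ ^ 2 = x z ^ 2 + r z ^ 2 := by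
    intro z
    show ‖z‖ ^ 2 = x z ^ 2 + ‖z - x z • e‖ ^ 2
    rw [norm_sub_sq_real, real_inner_smul_right, norm_smul, he, real_inner_comm]
    simp only [mul_one, Real.norm_eq_abs, sq_abs]
    show ‖z‖ ^ 2 = x z ^ 2 + (‖z‖ ^ 2 - 2 * (x z * x z) + x z ^ 2)
    ring
  -- the gauge
  let N : E n → ℝ := fun w => P Λ τ (x w) (r w) - x w
  have hNc : Continuous N := by
    have h1 : Continuous fun w => (x w, r w) := hxc.prodMk hrc
    exact (hPc.comp_continuous h1 (fun w => hr0 w)).sub hxc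
  have hNh : ∀ t : ℝ, 0 ≤ t → ∀ w, N (t • w) = t * N w := by
    intro t ht w
    show P Λ τ (x (t • w)) (r (t • w)) - x (t • w) = t * (P Λ τ (x w) (r w) - x w)
    rw [hxsmul, hrsmul t w ht, hP1 _ _ _ (hr0 w) ht]
    ring
  have hNp : ∀ w, w ≠ 0 → 0 < N w := by
    intro w hw
    have h1 : (x w, r w) ≠ ((0:ℝ), (0:ℝ)) := by
      intro h
      rw [Prod.mk.injEq] at h
      have h2 := hpyth w
      rw [h.1, h.2] at h2
      apply hw
      have : ‖w‖ = 0 := by nlinarith [norm_nonneg w]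
      exact norm_eq_zero.1 this
    have := hP2 _ _ (hr0 w) h1
    show 0 < P Λ τ (x w) (r w) - x w
    linarith
  let N' : E n → ℝ := fun w => N (-w)
  have hN'c : Continuous N' := hNc.comp continuous_neg
  have hN'h : ∀ t : ℝ, 0 ≤ t → ∀ w, N' (t • w) = t * N' w := by
    intro t ht w
    show N (-(t • w)) = t * N (-w)
    rw [← smul_neg, hNh t ht]
  have hN'p : ∀ w, w ≠ 0 → 0 < N' w := fun w hw => hNp _ (neg_ne_zero.2 hw)
  obtain ⟨hM1, hM2, hM3, hM4⟩ := T1_gauge hn N hNc hNh hNp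
  obtain ⟨hM1', hM2', hM3', hM4'⟩ := T1_gauge hn N' hN'c hN'h hN'p
  set M : Set (E n) := {w | N w ≤ 1} with hM
  set M' : Set (E n) := {w | N' w ≤ 1} with hM'
  -- symmetry
  have hsym : ∀ w, N (w - e) ≤ 1 ↔ N' w ≤ 1 := by
    intro w
    show P Λ τ (x (w - e)) (r (w - e)) - x (w - e) ≤ 1 ↔ P Λ τ (x (-w)) (r (-w)) - x (-w) ≤ 1
    rw [hrsub, hrneg, hxsub, hxe, hxneg]
    have h1 := hP3 (x w - 1) (x w) (r w) (hr0 w)
    constructor
    · intro h
      have := h1.1 (by linarith)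
      linarith
    · intro h
      have := h1.2 (by linarith)
      linarith
  let p : E n := (1 / 2 : ℝ) • e
  have hpe : p + p = e := by
    show (1 / 2 : ℝ) • e + (1 / 2 : ℝ) • e = e
    rw [← add_smul]; norm_num
  have hp0 : p ≠ 0 := by
    intro h; rw [h, add_zero] at hpe; exact he0 hpe.symm
  let L : Set (E n) := {z | N (z - p) ≤ 1}
  have hL1 : (fun z => z - p) '' L = M := by
    ext w
    constructor
    · rintro ⟨z, hz, rfl⟩; exact hz
    · intro hw
      refine ⟨w + p, ?_, by simp⟩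
      show N (w + p - p) ≤ 1
      rw [add_sub_cancel_right]; exact hw
  have hL2 : (fun z => z - (-p)) '' L = M' := by
    ext w
    constructor
    · rintro ⟨z, hz, rfl⟩
      show N' (z - (-p)) ≤ 1
      rw [← hsym, ← hpe]
      have : z - -p - (p + p) = z - p := by abel
      rw [this]; exact hz
    · intro hw
      refine ⟨w - p, ?_, by simp⟩
      show N (w - p - p) ≤ 1
      rw [sub_sub, hpe, hsym]; exact hw
  have hL1' : (fun z => z + p) '' M = L := by
    rw [← hL1, image_image]; simp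
  have hL2' : (fun z => z + (-p)) '' M' = L := by
    rw [← hL2, image_image]; simp
  have himg : ∀ (K : Set (E n)) (v : E n), interior ((fun z => z + v) '' K) =
      (fun z => z + v) '' interior K := fun K v =>
    ((Homeomorph.addRight v).image_interior K).symm
  have himgc : ∀ (K : Set (E n)) (v : E n), closure ((fun z => z + v) '' K) =
      (fun z => z + v) '' closure K := fun K v =>
    ((Homeomorph.addRight v).image_closure K).symm
  have hbody : IsBody L := by
    refine ⟨?_, ?_⟩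
    · rw [← hL1']
      exact hM3.1.image (continuous_id.add continuous_const)
    · rw [← hL1', himg, himgc, ← hM3.2]
  have hsum : ∀ u : E n, ‖u‖ = 1 → (N u)⁻¹ ^ i + (N (-u))⁻¹ ^ i = A := by
    intro u hu
    have hu0 : u ≠ 0 := by
      intro h; rw [h, norm_zero] at hu; exact zero_ne_one hu
    have h1 := hP4 (x u) (r u) (hr0 u) (by rw [← hpyth, hu]; norm_num)
    have h2 := hNp u hu0
    have h3 := hNp (-u) (neg_ne_zero.2 hu0)
    rw [← h1, Real.inv_rpow h2.le, Real.inv_rpow h3.le, ← Real.rpow_neg h2.le,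
      ← Real.rpow_neg h3.le]
    show _ + (P Λ τ (x (-u)) (r (-u)) - x (-u)) ^ (-i) = _
    rw [hrneg, hxneg, sub_neg_eq_add]
  refine ⟨L, hbody, p, -p, ?_, ?_, ?_⟩
  · intro h
    have h2 : p + p = 0 := by nth_rw 2 [h]; simp
    rw [hpe] at h2
    exact he0 h2
  · refine ⟨?_, ?_, A / 2, by linarith, ?_⟩
    · rw [← hL1', himg]
      exact ⟨0, hM4, by simp⟩
    · rw [hL1]; exact hM1
    · intro u hu
      have hu0 : u ≠ 0 := by
        intro h; rw [h, norm_zero] at hu; exact zero_ne_one hu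
      unfold chordFn
      rw [if_neg hi, hL1, hM2 u hu0, hM2 (-u) (neg_ne_zero.2 hu0), hsum u hu]
  · refine ⟨?_, ?_, A / 2, by linarith, ?_⟩
    · rw [← hL2', himg]
      exact ⟨0, hM4', by simp⟩
    · rw [hL2]; exact hM1'
    · intro u hu
      have hu0 : u ≠ 0 := by
        intro h; rw [h, norm_zero] at hu; exact zero_ne_one hu
      unfold chordFn
      rw [if_neg hi, hL2, hM2' u hu0, hM2' (-u) (neg_ne_zero.2 hu0)]
      show ((N (-u))⁻¹ ^ i + (N (- -u))⁻¹ ^ i) / 2 = A / 2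
      rw [neg_neg, add_comm, hsum u hu]

end Pool.Agent.H892R2.EC
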